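import Pool.Agent.H4.AR.L1Det
import Pool.Agent.H72.ES.Defs

/-!
# [H98 FF CHP] The lowest coefficient of the characteristic polynomial

`SubMul` (sizes) and `Fil` (degrees) for determinants and characteristic polynomials.
`low_coeff`: a matrix `G` over `A = ℤ[X_v]` with an eigenvector `u ≠ 0` over `S ⊇ A`, eigenvalue `g ≠ 0`: the lowest nonzero
coefficient `N0` of the characteristic polynomial is a multiple of `g` in `S`.
-/

namespace Pool.Agent.H98.FF

open Finset Polynomial Pool.Agent.H72.ES H4AR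

/-- a filtration (degrees) -/
structure Fil {R : Type*} [CommRing R] (dg : R → ℕ → Prop) : Prop where
  mono : ∀ a k l, dg a k → k ≤ l → dg a l
  zero : dg 0 0
  one : dg 1 0
  neg : ∀ a k, dg a k → dg (-a) k
  add : ∀ a b k, dg a k → dg b k → dg (a + b) k
  mul : ∀ a b k l, dg a k → dg b l → dg (a * b) (k + l)

section general

variable {R : Type*} [CommRing R] {ι : Type*} [Fintype ι] [DecidableEq ι]

theorem subMul_sum {ν : R → ℝ} (hν : SubMul ν) {α : Type*} (s : Finset α) (f : α → R) :
    ν (∑ i ∈ s, f i) ≤ ∑ i ∈ s, ν (f i) := by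
  classical
  induction s using Finset.induction_on with
  | empty => simp [hν.zero]
  | insert a s ha ih =>
    rw [sum_insert ha, sum_insert ha]
    exact (hν.add _ _).trans (by linarith)

theorem subMul_prod {ν : R → ℝ} (hν : SubMul ν) {α : Type*} (s : Finset α) (f : α → R) :
    ν (∏ i ∈ s, f i) ≤ ∏ i ∈ s, ν (f i) := by
  classical
  induction s using Finset.induction_on with
  | empty => simpa using hν.one
  | insert a s ha ih =>
    rw [prod_insert ha, prod_insert ha]
    exact (hν.mul _ _).trans (mul_le_mul_of_nonneg_left ih (hν.nonneg _))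

theorem subMul_pow {ν : R → ℝ} (hν : SubMul ν) (a : R) (k : ℕ) : ν (a ^ k) ≤ ν a ^ k := by
  induction k with
  | zero => simpa using hν.one
  | succ k ih =>
    rw [pow_succ, pow_succ]
    exact (hν.mul _ _).trans (mul_le_mul_of_nonneg_right ih (hν.nonneg _))

theorem subMul_det {ν : R → ℝ} (hν : SubMul ν) (M : Matrix ι ι R) {B : ℝ} (hB : 0 ≤ B)
    (h : ∀ i j, ν (M i j) ≤ B) :
    ν M.det ≤ ((Fintype.card ι).factorial : ℝ) * B ^ Fintype.card ι := by
  rw [Matrix.det_apply]
  refine (subMul_sum hν _ _).trans ?_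
  have h1 : ∀ σ ∈ (Finset.univ : Finset (Equiv.Perm ι)),
      ν (Equiv.Perm.sign σ • ∏ i, M (σ i) i) ≤ B ^ Fintype.card ι := by
    intro σ _
    have h2 : ν (∏ i, M (σ i) i) ≤ B ^ Fintype.card ι := by
      refine (subMul_prod hν _ _).trans ?_
      calc ∏ i, ν (M (σ i) i) ≤ ∏ _i : ι, B :=
            Finset.prod_le_prod (fun i _ => hν.nonneg _) (fun i _ => h _ _)
        _ = B ^ Fintype.card ι := by simp
    rcases Int.units_eq_one_or (Equiv.Perm.sign σ) with h3 | h3
    · rw [h3, one_smul]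
      exact h2
    · rw [h3, Units.neg_smul, one_smul, hν.neg]
      exact h2
  refine (Finset.sum_le_sum h1).trans ?_
  rw [Finset.sum_const, Finset.card_univ, Fintype.card_perm, nsmul_eq_mul]

theorem Fil.sum {dg : R → ℕ → Prop} (h : Fil dg) {α : Type*} (s : Finset α) (f : α → R) (k : ℕ)
    (hf : ∀ i ∈ s, dg (f i) k) : dg (∑ i ∈ s, f i) k := by
  classical
  induction s using Finset.induction_on with
  | empty => simpa using h.mono _ _ _ h.zero (Nat.zero_le k)
  | insert a s ha ih =>
    rw [sum_insert ha]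
    exact h.add _ _ _ (hf a (mem_insert_self _ _)) (ih fun i hi => hf i (mem_insert_of_mem hi))

theorem Fil.prod {dg : R → ℕ → Prop} (h : Fil dg) {α : Type*} (s : Finset α) (f : α → R)
    (k : α → ℕ) (hf : ∀ i ∈ s, dg (f i) (k i)) : dg (∏ i ∈ s, f i) (∑ i ∈ s, k i) := by
  classical
  induction s using Finset.induction_on with
  | empty => simpa using h.one
  | insert a s ha ih =>
    rw [prod_insert ha, sum_insert ha]
    exact h.mul _ _ _ _ (hf a (mem_insert_self _ _)) (ih fun i hi => hf i (mem_insert_of_mem hi))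

theorem Fil.pow {dg : R → ℕ → Prop} (h : Fil dg) {a : R} {k : ℕ} (ha : dg a k) (l : ℕ) :
    dg (a ^ l) (l * k) := by
  induction l with
  | zero => simpa using h.one
  | succ l ih =>
    rw [pow_succ, add_mul, one_mul]
    exact h.mul _ _ _ _ ih ha

theorem Fil.det {dg : R → ℕ → Prop} (h : Fil dg) (M : Matrix ι ι R) {D : ℕ}
    (hM : ∀ i j, dg (M i j) D) : dg M.det (Fintype.card ι * D) := by
  rw [Matrix.det_apply]
  refine h.sum _ _ _ fun σ _ => ?_
  have h2 : dg (∏ i, M (σ i) i) (Fintype.card ι * D) := by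
    have h3 := h.prod Finset.univ (fun i => M (σ i) i) (fun _ => D) (fun i _ => hM _ _)
    simpa using h3
  rcases Int.units_eq_one_or (Equiv.Perm.sign σ) with h3 | h3
  · rw [h3, one_smul]
    exact h2
  · rw [h3, Units.neg_smul, one_smul]
    exact h.neg _ _ h2

/-- the sum of the sizes of the coefficients -/
noncomputable def nup (ν : R → ℝ) (p : R[X]) : ℝ := ∑ k ∈ p.support, ν (p.coeff k)

theorem nup_eq {ν : R → ℝ} (hν : SubMul ν) (p : R[X]) {n : ℕ} (hn : p.natDegree < n) :
    nup ν p = ∑ k ∈ range n, ν (p.coeff k) := by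
  unfold nup
  refine Finset.sum_subset (fun k hk => ?_) (fun k _ hk => ?_)
  · exact mem_range.2 (lt_of_le_of_lt (le_natDegree_of_mem_supp k hk) hn)
  · rw [Polynomial.notMem_support_iff.1 hk, hν.zero]

theorem nup_subMul {ν : R → ℝ} (hν : SubMul ν) : SubMul (nup ν) := by
  refine ⟨fun p => Finset.sum_nonneg fun k _ => hν.nonneg _, by simp [nup], fun p => ?_,
    fun p q => ?_, fun p q => ?_, ?_⟩
  · unfold nup
    rw [Polynomial.support_neg]
    exact Finset.sum_congr rfl fun k _ => by rw [coeff_neg, hν.neg]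
  · set n := max p.natDegree q.natDegree + 1 with hn
    rw [nup_eq hν p (n := n) (by omega), nup_eq hν q (n := n) (by omega),
      nup_eq hν (p + q) (n := n) (lt_of_le_of_lt (natDegree_add_le _ _) (by omega)),
      ← sum_add_distrib]
    exact Finset.sum_le_sum fun k _ => by rw [coeff_add]; exact hν.add _ _
  · have h1 : p * q = ∑ i ∈ p.support, ∑ j ∈ q.support,
        monomial (i + j) (p.coeff i * q.coeff j) := by
      conv_lhs => rw [p.as_sum_support, q.as_sum_support]
      rw [sum_mul_sum]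
      exact Finset.sum_congr rfl fun i _ => Finset.sum_congr rfl fun j _ => monomial_mul_monomial _ _ _ _
    have h2 : ∀ (i : ℕ) (a : R), nup ν (monomial i a) ≤ ν a := by
      intro i a
      unfold nup
      by_cases ha : a = 0
      · rw [ha]
        simp [hν.zero]
      · rw [support_monomial i ha, sum_singleton, coeff_monomial_same]
    -- subadditivity over a finite sum
    have hadd : ∀ p q : R[X], nup ν (p + q) ≤ nup ν p + nup ν q := by
      intro p q
      set n := max p.natDegree q.natDegree + 1 with hn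
      rw [nup_eq hν p (n := n) (by omega), nup_eq hν q (n := n) (by omega),
        nup_eq hν (p + q) (n := n) (lt_of_le_of_lt (natDegree_add_le _ _) (by omega)),
        ← sum_add_distrib]
      exact Finset.sum_le_sum fun k _ => by rw [coeff_add]; exact hν.add _ _
    have hsum : ∀ (α : Type) (s : Finset α) (f : α → R[X]), nup ν (∑ i ∈ s, f i) ≤ ∑ i ∈ s, nup ν (f i) := by
      intro α s f
      classical
      induction s using Finset.induction_on with
      | empty => simp [nup]
      | insert a s ha ih =>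
        rw [sum_insert ha, sum_insert ha]
        exact (hadd _ _).trans (by linarith)
    rw [h1]
    refine (hsum _ _ _).trans ?_
    calc ∑ i ∈ p.support, nup ν (∑ j ∈ q.support, monomial (i + j) (p.coeff i * q.coeff j))
        ≤ ∑ i ∈ p.support, ∑ j ∈ q.support, ν (p.coeff i) * ν (q.coeff j) := by
          refine Finset.sum_le_sum fun i _ => (hsum _ _ _).trans ?_
          exact Finset.sum_le_sum fun j _ => (h2 _ _).trans (hν.mul _ _)
      _ = nup ν p * nup ν q := by
          unfold nup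
          rw [sum_mul_sum]
  · have h1 : (1 : R[X]) = C 1 := by simp
    unfold nup
    refine le_trans (Finset.sum_le_sum_of_subset_of_nonneg (t := {0}) ?_ fun k _ _ => hν.nonneg _) ?_
    · intro k hk
      rw [mem_singleton]
      by_contra hk0
      rw [mem_support_iff, h1, coeff_C, if_neg hk0] at hk
      exact hk rfl
    · rw [sum_singleton]
      simpa using hν.one

theorem coeff_le_nup {ν : R → ℝ} (hν : SubMul ν) (p : R[X]) (k : ℕ) : ν (p.coeff k) ≤ nup ν p := by
  by_cases hk : k ∈ p.support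
  · exact Finset.single_le_sum (f := fun k => ν (p.coeff k)) (fun i _ => hν.nonneg _) hk
  · rw [Polynomial.notMem_support_iff.1 hk, hν.zero]
    exact Finset.sum_nonneg fun k _ => hν.nonneg _

theorem nup_C {ν : R → ℝ} (hν : SubMul ν) (a : R) : nup ν (C a) ≤ ν a := by
  rw [nup_eq hν (C a) (n := 1) (by simp)]
  simp

theorem nup_X {ν : R → ℝ} (hν : SubMul ν) : nup ν (X : R[X]) ≤ 1 := by
  rw [nup_eq hν (X : R[X]) (n := 2) (lt_of_le_of_lt natDegree_X_le (by norm_num))]
  rw [sum_range_succ, sum_range_succ, sum_range_zero, coeff_X_zero, coeff_X_one, hν.zero]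
  simpa using hν.one

theorem charpoly_size {ν : R → ℝ} (hν : SubMul ν) (G : Matrix ι ι R) {B : ℝ} (hB : 0 ≤ B)
    (h : ∀ i j, ν (G i j) ≤ B) (k : ℕ) :
    ν (G.charpoly.coeff k) ≤ ((Fintype.card ι).factorial : ℝ) * (1 + B) ^ Fintype.card ι := by
  refine (coeff_le_nup hν _ k).trans ?_
  unfold Matrix.charpoly
  refine subMul_det (nup_subMul hν) _ (by linarith) fun i j => ?_
  rw [Matrix.charmatrix_apply, sub_eq_add_neg]
  refine ((nup_subMul hν).add _ _).trans ?_
  refine add_le_add ?_ ?_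
  · rw [Matrix.diagonal_apply]
    split_ifs
    · exact nup_X hν
    · rw [(nup_subMul hν).zero]
      norm_num
  · rw [(nup_subMul hν).neg]
    exact (nup_C hν _).trans (h i j)

theorem Fil.poly {dg : R → ℕ → Prop} (h : Fil dg) : Fil (fun (p : R[X]) k => ∀ l, dg (p.coeff l) k) := by
  refine ⟨fun p k l hp hkl i => h.mono _ _ _ (hp i) hkl, fun l => ?_, fun l => ?_, fun p k hp l => ?_,
    fun p q k hp hq l => ?_, fun p q k l hp hq i => ?_⟩
  · rw [coeff_zero]
    exact h.zero
  · have h1 : (1 : R[X]) = C 1 := by simp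
    rw [h1, coeff_C]
    split_ifs
    · exact h.one
    · exact h.zero
  · rw [coeff_neg]
    exact h.neg _ _ (hp l)
  · rw [coeff_add]
    exact h.add _ _ _ (hp l) (hq l)
  · rw [coeff_mul]
    exact h.sum _ _ _ fun x _ => h.mul _ _ _ _ (hp _) (hq _)

theorem charpoly_deg {dg : R → ℕ → Prop} (hdg : Fil dg) (G : Matrix ι ι R) {D : ℕ}
    (h : ∀ i j, dg (G i j) D) (k : ℕ) : dg (G.charpoly.coeff k) (Fintype.card ι * D) := by
  unfold Matrix.charpoly
  refine hdg.poly.det _ (fun i j l => ?_) k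
  rw [Matrix.charmatrix_apply, sub_eq_add_neg, coeff_add, coeff_neg]
  refine hdg.add _ _ _ ?_ (hdg.neg _ _ ?_)
  · rw [Matrix.diagonal_apply]
    split_ifs
    · rw [coeff_X]
      split_ifs
      · exact hdg.mono _ _ _ hdg.one (Nat.zero_le _)
      · exact hdg.mono _ _ _ hdg.zero (Nat.zero_le _)
    · rw [coeff_zero]
      exact hdg.mono _ _ _ hdg.zero (Nat.zero_le _)
  · rw [coeff_C]
    split_ifs
    · exact h i j
    · exact hdg.mono _ _ _ hdg.zero (Nat.zero_le _)

/-- the eigenvalue is a root of the characteristic polynomial -/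
theorem charpoly_root {S : Type*} [CommRing S] [IsDomain S] (G : Matrix ι ι R) (φ : R →+* S)
    (u : ι → S) {i0 : ι} (hu : u i0 ≠ 0) (g : S) (heig : ∀ i, ∑ j, φ (G i j) * u j = g * u i) :
    G.charpoly.eval₂ φ g = 0 := by
  have h1 : G.charpoly.eval₂ φ g = (G.map φ).charpoly.eval g := by
    rw [Matrix.charpoly_map, eval_map]
  rw [h1, Matrix.eval_charpoly]
  refine Matrix.exists_mulVec_eq_zero_iff.1 ⟨u, fun h => hu (by rw [h]; rfl), ?_⟩
  funext i
  rw [Matrix.sub_mulVec, Pi.sub_apply, Pi.zero_apply, sub_eq_zero]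
  have h2 : (Matrix.scalar ι g).mulVec u i = g * u i := by
    rw [Matrix.scalar_apply, Matrix.mulVec_diagonal]
  rw [h2, ← heig i]
  rfl

end general

theorem l1_subMul (m' : ℕ) : SubMul (l1 : MvPolynomial (Fin m') ℤ → ℝ) :=
  ⟨l1_nonneg, l1_zero, l1_neg, l1_add_le, l1_mul_le, l1_one.le⟩

theorem degreeOf_fil (m' : ℕ) (v : Fin m') :
    Fil (fun (f : MvPolynomial (Fin m') ℤ) k => f.degreeOf v ≤ k) := by
  refine ⟨fun a k l h hkl => h.trans hkl, by simp, by simp, fun a k h => ?_, fun a b k ha hb => ?_,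
    fun a b k l ha hb => ?_⟩
  · rwa [MvPolynomial.degreeOf_neg]
  · exact (MvPolynomial.degreeOf_add_le _ _ _).trans (max_le ha hb)
  · exact (MvPolynomial.degreeOf_mul_le _ _ _).trans (Nat.add_le_add ha hb)

theorem low_coeff {m' : ℕ} {ι S : Type} [Fintype ι] [DecidableEq ι] [CommRing S] [IsDomain S]
    (G : Matrix ι ι (MvPolynomial (Fin m') ℤ)) (φ : MvPolynomial (Fin m') ℤ →+* S)
    (u : ι → S) {i0 : ι} (hu : u i0 ≠ 0) {g : S} (hg : g ≠ 0)
    (heig : ∀ i, ∑ j, φ (G i j) * u j = g * u i) (D : Fin m' → ℕ) {B : ℝ} (hB : 0 ≤ B)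
    (hD : ∀ i j v, (G i j).degreeOf v ≤ D v) (hl : ∀ i j, l1 (G i j) ≤ B) :
    ∃ N0 : MvPolynomial (Fin m') ℤ, N0 ≠ 0 ∧ (∃ h : S, φ N0 = g * h) ∧
      (∀ v, N0.degreeOf v ≤ Fintype.card ι * D v) ∧
      l1 N0 ≤ ((Fintype.card ι).factorial : ℝ) * (1 + B) ^ (Fintype.card ι) := by
  have hroot := charpoly_root G φ u hu g heig
  set χ := G.charpoly with hχ
  have hχ0 : χ ≠ 0 := (Matrix.charpoly_monic G).ne_zero
  refine ⟨χ.coeff χ.natTrailingDegree, ?_, ?_, fun v => ?_, ?_⟩
  · exact Polynomial.trailingCoeff_nonzero_iff_nonzero.2 hχ0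
  · have h1 : X ^ χ.natTrailingDegree ∣ χ := by
      rw [X_pow_dvd_iff]
      intro d hd
      exact coeff_eq_zero_of_lt_natTrailingDegree hd
    obtain ⟨ψ, hψ⟩ := h1
    have h2 : χ.coeff χ.natTrailingDegree = ψ.coeff 0 := by
      conv_lhs => rw [hψ]
      rw [coeff_X_pow_mul']
      simp [← hψ]
    rw [hψ, eval₂_mul, eval₂_pow, eval₂_X] at hroot
    have h3 : ψ.eval₂ φ g = 0 := by
      rcases mul_eq_zero.1 hroot with h | h
      · exact absurd h (pow_ne_zero _ hg)
      · exact h
    rw [← divX_mul_X_add ψ, eval₂_add, eval₂_mul, eval₂_X, eval₂_C] at h3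
    refine ⟨- (ψ.divX.eval₂ φ g), ?_⟩
    rw [h2]
    linear_combination h3
  · exact charpoly_deg (degreeOf_fil m' v) G (fun i j => hD i j v) _
  · exact charpoly_size (l1_subMul m') G hB hl _

end Pool.Agent.H98.FF
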