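import Pool.Agent.H98.FF.KRO
import Pool.Agent.H97.FB.Defs2

/-!
# [H98 FF INT] The series of the anchor is integral over `ℤ[t]`, explicitly
-/

namespace Pool.Agent.H98.FF

open Finset Polynomial Pool.Agent.H72.ES Pool.Agent.H87.SA Pool.Agent.H87.SA2 Pool.Agent.H97.FB

theorem L1_C (a : ℤ) : L1 (C a) = |(a : ℝ)| := by
  have h : (C a : ℤ[X]) = C a * X ^ 0 := by rw [pow_zero, mul_one]
  rw [h, L1_monomial]

theorem L1_le_of {p : ℤ[X]} {Q : ℕ} (hp : p.natDegree ≤ Q) {V : ℝ}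
    (h : ∀ j, |((p.coeff j : ℤ) : ℝ)| ≤ V) : L1 p ≤ (Q + 1) * V := by
  have hV : 0 ≤ V := (abs_nonneg _).trans (h 0)
  unfold L1
  have h1 : p.support ⊆ range (Q + 1) := by
    intro j hj
    rw [mem_range]
    have := le_natDegree_of_mem_supp j hj
    omega
  calc ∑ i ∈ p.support, |((p.coeff i : ℤ) : ℝ)| ≤ ∑ _i ∈ p.support, V :=
        sum_le_sum fun i _ => h i
    _ = p.support.card * V := by rw [sum_const, nsmul_eq_mul]
    _ ≤ (Q + 1) * V := by
        refine mul_le_mul_of_nonneg_right ?_ hV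
        have h2 := card_le_card h1
        rw [card_range] at h2
        exact_mod_cast h2

/-- the coefficients of a monic polynomial whose roots are bounded -/
theorem coeff_gw {p : ℤ[X]} (hp : p.Monic) {Q : ℕ} (hd : p.natDegree ≤ Q) {V : ℝ} (hV : 1 ≤ V)
    (hr : ∀ z : ℂ, aeval z p = 0 → ‖z‖ ≤ V) (j : ℕ) :
    |((p.coeff j : ℤ) : ℝ)| ≤ V ^ Q * 2 ^ Q := by
  have h1 := coeff_le_of_roots_le (f := Int.castRingHom ℂ) (B := V) j hp
    (IsAlgClosed.splits _) (fun z hz => by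
      rw [mem_roots'] at hz
      refine hr z ?_
      have h2 := hz.2
      rw [IsRoot.def, eval_map] at h2
      rw [aeval_def]
      exact h2)
  rw [coeff_map] at h1
  have h2 : ‖((p.coeff j : ℤ) : ℂ)‖ = |((p.coeff j : ℤ) : ℝ)| := by
    rw [Complex.norm_intCast]
  rw [eq_intCast, h2] at h1
  refine h1.trans (mul_le_mul (pow_le_pow_right₀ hV (by omega)) ?_ (Nat.cast_nonneg _) (by positivity))
  have h3 : p.natDegree.choose j ≤ 2 ^ Q :=
    (Nat.choose_le_two_pow _ _).trans (Nat.pow_le_pow_right (by norm_num) hd)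
  exact_mod_cast h3

theorem natDegree_pos_of_root {R S : Type*} [CommRing R] [CommRing S] [Nontrivial S] {p : R[X]}
    (hp : p.Monic) (φ : R →+* S) (z : S) (h : p.eval₂ φ z = 0) : 1 ≤ p.natDegree := by
  by_contra hcon
  have h1 : p.natDegree = 0 := by omega
  have h2 : p = 1 := hp.natDegree_eq_zero.1 h1
  rw [h2, eval₂_one] at h
  exact one_ne_zero h

/-- the constants -/
def BQ (Q0 : ℕ) : ℕ := (Q0 + 1) ^ (2 * Q0 + 1)

def CQ (Q0 : ℕ) : ℕ := (BQ Q0).factorial * (2 * (Q0 + 1) ^ 4 * 2 ^ Q0) ^ BQ Q0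

theorem exists_intA (Q0 : ℕ) {Dn Dl κ e M : ℕ} {X0 R : ℝ}
    (an : Pool.Agent.H87.AX.AnchX Dn Dl κ e M X0 R) (al : AlgA an Q0) (hb : Bnd Q0 Dn Dl κ e M X0 R)
    (hX : (2 * R) ^ CQ Q0 ≤ X0) :
    Nonempty (IntA an al.q al.N (BQ Q0) (1 + BQ Q0 * (Q0 * Q0 + 1))) := by
  classical
  have hR2 := hb.R2
  have hQ0 : 1 ≤ Q0 := hb.e1.trans hb.e_le
  have hC1 : 1 ≤ CQ Q0 := by
    unfold CQ
    exact Nat.one_le_iff_ne_zero.2 (Nat.mul_ne_zero (Nat.factorial_ne_zero _) (by positivity))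
  have hXR : R ≤ X0 := by
    calc R ≤ 2 * R := by linarith
      _ = (2 * R) ^ 1 := by rw [pow_one]
      _ ≤ (2 * R) ^ CQ Q0 := pow_le_pow_right₀ (by linarith) hC1
      _ ≤ X0 := hX
  have hX1 : 1 ≤ X0 := by linarith
  have hXC : (CQ Q0 : ℝ) ≤ X0 := by
    have h1 : ((CQ Q0 : ℕ) : ℝ) ≤ (2 : ℝ) ^ CQ Q0 := by
      exact_mod_cast (Nat.lt_two_pow_self (n := CQ Q0)).le
    have h2 : (2 : ℝ) ^ CQ Q0 ≤ (2 * R) ^ CQ Q0 := pow_le_pow_left₀ (by norm_num) (by linarith) _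
    linarith
  set Ψ : Fin al.L → ℤ[X][X] := fun l => (al.gw l).map C with hΨ
  have hΨd : ∀ l, (Ψ l).natDegree = (al.gw l).natDegree := fun l =>
    (al.gw_monic l).natDegree_map _
  have hΨm : ∀ l, (Ψ l).Monic := fun l => (al.gw_monic l).map _
  have hΨc : ∀ l j, (Ψ l).coeff j = C ((al.gw l).coeff j) := fun l j => by rw [hΨ, coeff_map]
  set s := Fintype.card (KI Ψ al.f1) with hs
  have hsB : s ≤ (Q0 + 1) ^ (2 * Q0) :=
    KI_card al.L_le (fun l => by rw [hΨd]; exact al.gw_deg l) al.deg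
  have hsB' : s ≤ BQ Q0 := by
    refine hsB.trans ?_
    unfold BQ
    exact Nat.pow_le_pow_right (by omega) (by omega)
  -- the complex relation
  have hω : ∀ l, (Ψ l).eval₂ (tq e al.q) (PowerSeries.C (al.w l)) = 0 := by
    intro l
    rw [hΨ, eval₂_map]
    have h1 : (tq e al.q).comp C = (PowerSeries.C (R := ℂ)).comp (Int.castRingHom ℂ) :=
      RingHom.ext_int _ _
    rw [h1, ← Polynomial.hom_eval₂]
    have h2 := al.gw_root l
    rw [aeval_def] at h2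
    have h3 : (al.gw l).eval₂ (Int.castRingHom ℂ) (al.w l) = 0 := h2
    rw [h3, map_zero]
  have hξ : ∀ l, al.f1.eval₂ (tq e al.q) (al.x l) = 0 := by
    intro l
    rw [← eval_map]
    exact al.root l
  have hne : Nonempty (KI Ψ al.f1) := by
    refine ⟨(fun l => ⟨0, natDegree_pos_of_root (hΨm l) _ _ (hω l)⟩, fun l =>
      ⟨0, natDegree_pos_of_root al.monic _ _ (hξ l)⟩)⟩
  have hs1 : 1 ≤ s := Fintype.card_pos
  have hrootC : (KG Ψ al.f1).charpoly.eval₂ (tq e al.q) (∑ l, PowerSeries.C (al.w l) * al.x l) = 0 := by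
    refine charpoly_root (KG Ψ al.f1) (tq e al.q)
      (KU Ψ al.f1 (fun l => PowerSeries.C (al.w l)) al.x)
      (i0 := (fun l => ⟨0, natDegree_pos_of_root (hΨm l) _ _ (hω l)⟩, fun l =>
      ⟨0, natDegree_pos_of_root al.monic _ _ (hξ l)⟩)) ?_ _
      (KG_eig hΨm al.monic (tq e al.q) _ _ hω hξ)
    unfold KU
    simp
  -- the real relation
  have hroot : (KG Ψ al.f1).charpoly.eval₂ (tqh e al.q 0) (an.Z.map an.ψ) = 0 := by
    have hinj : Function.Injective (PowerSeries.map Complex.ofRealHom) := by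
      intro a b hab
      ext k
      have h1 := congrArg (PowerSeries.coeff k) hab
      rw [PowerSeries.coeff_map, PowerSeries.coeff_map] at h1
      exact Complex.ofReal_injective h1
    apply hinj
    rw [Polynomial.hom_eval₂, map_zero]
    have h1 : (PowerSeries.map Complex.ofRealHom).comp (tqh e al.q 0) = tq e al.q := by
      refine Polynomial.ringHom_ext (fun a => ?_) ?_
      · simp
      · simp [tqh, tq]
    have h2 : PowerSeries.map Complex.ofRealHom (an.Z.map an.ψ) =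
        ∑ l, PowerSeries.C (al.w l) * al.x l := by
      rw [← al.hZ, an.zs_i0]
    rw [h1, h2]
    exact hrootC
  -- sizes
  set W : ℝ := (X0 ^ Q0) ^ Q0 * 2 ^ Q0 with hW
  have hW1 : 1 ≤ W := one_le_mul_of_one_le_of_one_le (one_le_pow₀ (one_le_pow₀ hX1)) (one_le_pow₀ (by norm_num))
  set V : ℝ := ((Q0 : ℝ) + 1) * R with hV
  have hQR : (1 : ℝ) ≤ Q0 := by exact_mod_cast hQ0
  have hV1 : 1 ≤ V := by
    rw [hV]
    exact one_le_mul_of_one_le_of_one_le (by linarith) (by linarith)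
  have hGL : ∀ k k', L1 (KG Ψ al.f1 k k') ≤ (Q0 : ℝ) ^ 3 * (W * V) := by
    refine KG_L1 hW1 hV1 al.L_le (fun l => by rw [hΨd]; exact al.gw_deg l) al.deg
      (fun l j => ?_) (fun j => ?_)
    · rw [hΨc, L1_C]
      exact coeff_gw (al.gw_monic l) (al.gw_deg l) (one_le_pow₀ hX1) (al.gw_le l) j
    · exact L1_le_of (al.cdeg j) (al.le j)
  have hGd : ∀ k k', (KG Ψ al.f1 k k').natDegree ≤ Q0 :=
    KG_deg (fun l j => by rw [hΨc, natDegree_C]) al.cdeg
  have hfil : Fil (fun (p : ℤ[X]) k => p.natDegree ≤ k) := by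
    refine ⟨fun a k l h hkl => h.trans hkl, by simp, by simp, fun a k h => ?_, fun a b k ha hb => ?_,
      fun a b k l ha hb => ?_⟩
    · rwa [natDegree_neg]
    · exact (natDegree_add_le _ _).trans (max_le ha hb)
    · exact natDegree_mul_le.trans (Nat.add_le_add ha hb)
  have hle : ∀ j, L1 ((KG Ψ al.f1).charpoly.coeff j) ≤ X0 ^ (1 + BQ Q0 * (Q0 * Q0 + 1)) := by
    intro j
    have h1 := charpoly_size subMul_L1 (KG Ψ al.f1) (by positivity : (0 : ℝ) ≤ (Q0 : ℝ) ^ 3 * (W * V)) hGL j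
    refine h1.trans ?_
    rw [← hs]
    have h2 : 1 + (Q0 : ℝ) ^ 3 * (W * V) ≤ (2 * ((Q0 : ℝ) + 1) ^ 4 * 2 ^ Q0) * X0 ^ (Q0 * Q0 + 1) := by
      have e1 : W = X0 ^ (Q0 * Q0) * 2 ^ Q0 := by rw [hW, ← pow_mul]
      have e2 : (Q0 : ℝ) ^ 3 * (W * V) ≤ (((Q0 : ℝ) + 1) ^ 4 * 2 ^ Q0) * X0 ^ (Q0 * Q0 + 1) := by
        calc (Q0 : ℝ) ^ 3 * (W * V) ≤ ((Q0 : ℝ) + 1) ^ 3 * (W * (((Q0 : ℝ) + 1) * X0)) := by
              rw [hV]
              gcongr
              linarith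
          _ = (((Q0 : ℝ) + 1) ^ 4 * 2 ^ Q0) * X0 ^ (Q0 * Q0 + 1) := by
              rw [e1]
              ring
      have e3 : 1 ≤ (((Q0 : ℝ) + 1) ^ 4 * 2 ^ Q0) * X0 ^ (Q0 * Q0 + 1) := by
        refine one_le_mul_of_one_le_of_one_le (one_le_mul_of_one_le_of_one_le ?_ ?_) ?_
        · exact one_le_pow₀ (by linarith)
        · exact one_le_pow₀ (by norm_num)
        · exact one_le_pow₀ hX1
      calc 1 + (Q0 : ℝ) ^ 3 * (W * V) ≤ (((Q0 : ℝ) + 1) ^ 4 * 2 ^ Q0) * X0 ^ (Q0 * Q0 + 1) +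
            (((Q0 : ℝ) + 1) ^ 4 * 2 ^ Q0) * X0 ^ (Q0 * Q0 + 1) := add_le_add e3 e2
        _ = _ := by ring
    have hG1 : 1 ≤ 1 + (Q0 : ℝ) ^ 3 * (W * V) := by
      have : 0 ≤ (Q0 : ℝ) ^ 3 * (W * V) := by positivity
      linarith
    calc (s.factorial : ℝ) * (1 + (Q0 : ℝ) ^ 3 * (W * V)) ^ s
        ≤ ((BQ Q0).factorial : ℝ) * (1 + (Q0 : ℝ) ^ 3 * (W * V)) ^ BQ Q0 := by
          refine mul_le_mul ?_ (pow_le_pow_right₀ hG1 hsB') (by positivity) (by positivity)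
          exact_mod_cast Nat.factorial_le hsB'
      _ ≤ ((BQ Q0).factorial : ℝ) *
          ((2 * ((Q0 : ℝ) + 1) ^ 4 * 2 ^ Q0) * X0 ^ (Q0 * Q0 + 1)) ^ BQ Q0 := by
          refine mul_le_mul_of_nonneg_left (pow_le_pow_left₀ (by positivity) h2 _) (by positivity)
      _ = (CQ Q0 : ℝ) * X0 ^ (BQ Q0 * (Q0 * Q0 + 1)) := by
          unfold CQ
          push_cast
          rw [mul_pow, ← pow_mul X0, mul_comm (Q0 * Q0 + 1) (BQ Q0)]
          ring
      _ ≤ X0 * X0 ^ (BQ Q0 * (Q0 * Q0 + 1)) := mul_le_mul_of_nonneg_right hXC (by positivity)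
      _ = X0 ^ (1 + BQ Q0 * (Q0 * Q0 + 1)) := by rw [pow_add, pow_one]
  have hnd : (KG Ψ al.f1).charpoly.natDegree = s := Matrix.charpoly_natDegree_eq_dim _
  exact ⟨{
    e1 := hb.e1
    q1 := al.q1
    N1 := al.N1
    pow := hb.pow.trans (congrArg (fun k : ℕ => (k : ℝ)) al.MN)
    Φ := (KG Ψ al.f1).charpoly
    monic := Matrix.charpoly_monic _
    deg1 := by rw [hnd]; exact hs1
    deg := by rw [hnd]; exact hsB'
    cdeg := fun j => by
      refine (charpoly_deg hfil (KG Ψ al.f1) hGd j).trans ?_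
      rw [← hs]
      calc s * Q0 ≤ (Q0 + 1) ^ (2 * Q0) * (Q0 + 1) := Nat.mul_le_mul hsB (by omega)
        _ = BQ Q0 := by unfold BQ; rw [pow_succ]
    le := hle
    root := hroot }⟩

end Pool.Agent.H98.FF
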