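import Pool.Agent.H98.FF.DL
import Pool.Agent.H4.AR.Roth

/-!
# [H98 FF RP] Roth's lemma with the variables in another order
-/

namespace Pool.Agent.H98.FF

open Finset H4AR

theorem sh_rename {m : ℕ} (σ : Equiv.Perm (Fin m)) (r : Fin m → ℚ) (g : MvPolynomial (Fin m) ℚ) :
    sh (fun i => r (σ i)) (MvPolynomial.rename σ.symm g) = MvPolynomial.rename σ.symm (sh r g) := by
  have h1 : (sh (fun i => r (σ i)) : MvPolynomial (Fin m) ℚ →ₐ[ℚ] MvPolynomial (Fin m) ℚ).comp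
      (MvPolynomial.rename σ.symm) = (MvPolynomial.rename σ.symm).comp (sh r) := by
    refine MvPolynomial.algHom_ext fun j => ?_
    simp only [AlgHom.comp_apply, MvPolynomial.rename_X, sh_X, map_add, MvPolynomial.rename_C,
      Equiv.apply_symm_apply]
  exact congrArg (fun φ => φ g) h1

theorem roth_perm (m : ℕ) (del : ℝ) (hdel : 0 < del) : ∃ c : ℝ, 0 < c ∧ c ≤ 1 ∧
    ∀ (σ : Equiv.Perm (Fin m)) (d : Fin m → ℕ) (r : Fin m → ℚ) (f : MvPolynomial (Fin m) ℤ)
      (D : ℝ), 1 ≤ D → (∀ j, 1 ≤ d j) → (∀ j, (d j : ℝ) ≤ D) →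
      (∀ i j, i < j → (d (σ i) : ℝ) ≤ c * d (σ j)) → f ≠ 0 →
      (∀ j, f.degreeOf j ≤ d j) →
      (∀ j, Real.log (l1 f) + D ≤ c * ((d j : ℝ) * Real.log (ht (r j)))) →
      ∃ e : Fin m →₀ ℕ, wt d e ≤ del ∧ (sh r (toQ f)).coeff e ≠ 0 := by
  classical
  obtain ⟨c, hc0, hc1, hc⟩ := H4AR.roth m del hdel
  refine ⟨c, hc0, hc1, fun σ d r f D hD h1 h2 h3 h4 h5 h6 => ?_⟩
  obtain ⟨e, he1, he2⟩ := hc (fun i => d (σ i)) (fun i => r (σ i)) (MvPolynomial.rename σ.symm f) D hD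
    (fun i => h1 _) (fun i => h2 _) h3
    (fun h => h4 (MvPolynomial.rename_injective _ σ.symm.injective (by rw [h, map_zero])))
    (fun i => by
      have h7 := degreeOf_rename_le (f := σ.symm) σ.symm.injective f (σ i)
      rw [Equiv.symm_apply_apply] at h7
      exact h7.trans (h5 _))
    (fun i => by
      rw [l1_rename (f := σ.symm) σ.symm.injective]
      exact h6 _)
  refine ⟨e.mapDomain σ, ?_, ?_⟩
  · refine le_trans (le_of_eq ?_) he1
    unfold wt
    rw [← Equiv.sum_comp σ]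
    refine sum_congr rfl fun i _ => ?_
    rw [Finsupp.mapDomain_apply σ.injective]
  · have h7 : toQ (MvPolynomial.rename σ.symm f) = MvPolynomial.rename σ.symm (toQ f) := by
      unfold toQ
      rw [MvPolynomial.map_rename]
    rw [h7, sh_rename] at he2
    intro h8
    apply he2
    have h9 : e = (e.mapDomain σ).mapDomain σ.symm := by
      rw [← Finsupp.mapDomain_comp]
      have : (σ.symm : Fin m → Fin m) ∘ σ = id := by
        funext i
        simp
      rw [this, Finsupp.mapDomain_id]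
    rw [h9, MvPolynomial.coeff_rename_mapDomain _ σ.symm.injective]
    exact h8

/-- Roth's lemma in three variables, `i0, i1` the two first ones in any order -/
theorem roth3 (del : ℝ) (hdel : 0 < del) : ∃ c : ℝ, 0 < c ∧ c ≤ 1 ∧
    ∀ (i0 i1 : Fin 2), i0 ≠ i1 → ∀ (d : Fin 3 → ℕ) (r : Fin 3 → ℚ) (f : MvPolynomial (Fin 3) ℤ)
      (D : ℝ), 1 ≤ D → (∀ j, 1 ≤ d j) → (∀ j, (d j : ℝ) ≤ D) →
      (d (Fin.castSucc i0) : ℝ) ≤ c * d (Fin.castSucc i1) →
      (∀ u : Fin 2, (d (Fin.castSucc u) : ℝ) ≤ c * d (Fin.last 2)) → f ≠ 0 →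
      (∀ j, f.degreeOf j ≤ d j) →
      (∀ j, Real.log (l1 f) + D ≤ c * ((d j : ℝ) * Real.log (ht (r j)))) →
      ∃ e : Fin 3 →₀ ℕ, wt d e ≤ del ∧ (sh r (toQ f)).coeff e ≠ 0 := by
  obtain ⟨c, hc0, hc1, hc⟩ := roth_perm 3 del hdel
  refine ⟨c, hc0, hc1, fun i0 i1 hi d r f D hD h1 h2 h3 h3' h4 h5 h6 => ?_⟩
  have key : ∃ σ : Equiv.Perm (Fin 3), ∀ i j, i < j → (d (σ i) : ℝ) ≤ c * d (σ j) := by
    have hcases : (i0 = 0 ∧ i1 = 1) ∨ (i0 = 1 ∧ i1 = 0) := by
      fin_cases i0 <;> fin_cases i1 <;> simp_all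
    have h30 := h3' 0
    have h31 := h3' 1
    rcases hcases with ⟨a, b⟩ | ⟨a, b⟩
    · subst a b
      refine ⟨1, fun i j hij => ?_⟩
      fin_cases i <;> fin_cases j <;> first | exact absurd hij (by decide) | skip
      · exact h3
      · exact h30
      · exact h31
    · subst a b
      refine ⟨Equiv.swap 0 1, fun i j hij => ?_⟩
      fin_cases i <;> fin_cases j <;> first | exact absurd hij (by decide) | skip
      · exact h3
      · exact h31
      · exact h30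
  obtain ⟨σ, hσ⟩ := key
  exact hc σ d r f D hD h1 h2 hσ h4 h5 h6

end Pool.Agent.H98.FF
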