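import Pool.Agent.H98.FF.TT

/-!
# [H98 FF EIG] The eigenvector of the matrix `Gm`; the function `gS` is not zero
-/

namespace Pool.Agent.H98.FF

open Finset Polynomial Pool.Agent.H72.ES Pool.Agent.H87.SA Pool.Agent.H87.SA2 Pool.Agent.H8.AW Pool.Agent.H52.AC
  Pool.Agent.H97.NW H4AR

variable {m n : ℕ}

theorem phiT_ren (P : Fin m → Ptd n) (e q : ℕ) (h : ℝ) (f : MvPolynomial (Fin m) ℤ) :
    phiT P e q h (ren f) = mS (phi P f) := by
  have h1 : (phiT P e q h).comp (ren (m := m)) = mS.comp (phi P) := by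
    refine MvPolynomial.ringHom_ext (fun a => ?_) (fun v => ?_)
    · simp [ren]
    · simp [ren, phiT, phi]
  exact congrArg (fun φ => φ f) h1

theorem phiT_lt (P : Fin m → Ptd n) (e q : ℕ) (h : ℝ) (p : ℤ[X]) :
    phiT P e q h (lt p) = cS (tqh e q h p) := by
  have h1 : (phiT P e q h).comp (lt (m := m)) = cS.comp (tqh e q h) := by
    refine Polynomial.ringHom_ext (fun a => ?_) ?_
    · simp [lt]
    · simp [lt, phiT, tqh]
  exact congrArg (fun φ => φ p) h1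

/-- the anchor functions act on the basis `u^a Z^c` -/
theorem anc_eig {e q N J : ℕ} {X0 h : ℝ} {Φ : ℤ[X][X]} (hΦ : Φ.Monic) (he : 1 ≤ e)
    (hq : 1 ≤ q) (hpow : X0 ^ e = ((q ^ e * N : ℕ) : ℝ))
    {Zh : PowerSeries ℝ} (hZ : Φ.eval₂ (tqh e q h) Zh = 0) {s : ℕ} (hs : s ≤ J) (j : ℕ)
    (a : Fin e) (c : Fin Φ.natDegree) :
    ∑ a', ∑ c', tqh e q h (C ((q : ℤ) ^ (J - e * (s / e))) * X ^ (s / e) * Um N e (s % e) a a' *
        (cmq Φ ^ j) c c') *
        ((PowerSeries.C X0 * (PowerSeries.C h + PowerSeries.X)) ^ (a' : ℕ) * Zh ^ (c' : ℕ)) =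
      wS e q J X0 h Zh s j *
        ((PowerSeries.C X0 * (PowerSeries.C h + PowerSeries.X)) ^ (a : ℕ) * Zh ^ (c : ℕ)) := by
  set u : PowerSeries ℝ := PowerSeries.C X0 * (PowerSeries.C h + PowerSeries.X) with hu
  have htX : tqh e q h X = (PowerSeries.C (q : ℝ) * (PowerSeries.C h + PowerSeries.X)) ^ e := by
    simp [tqh]
  have hqc : ∀ a : ℤ, tqh e q h (C a) = (a : PowerSeries ℝ) := by
    intro a
    simp [tqh]
  have hue : u ^ e = (N : PowerSeries ℝ) * tqh e q h X := by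
    rw [htX, hu, mul_pow, mul_pow, ← map_pow, ← map_pow, hpow, ← mul_assoc]
    congr 1
    push_cast
    rw [map_mul, map_natCast, map_pow, map_natCast]
    ring
  have h1 := Um_eig (N := N) (Nat.mod_lt s he) (tqh e q h) u hue a
  have h2 := cmq_pow_eig hΦ (tqh e q h) Zh hZ j c
  have h3 : ∀ a' : Fin e, ∀ c' : Fin Φ.natDegree,
      tqh e q h (C ((q : ℤ) ^ (J - e * (s / e))) * X ^ (s / e) * Um N e (s % e) a a' *
        (cmq Φ ^ j) c c') * (u ^ (a' : ℕ) * Zh ^ (c' : ℕ)) =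
      tqh e q h (C ((q : ℤ) ^ (J - e * (s / e))) * X ^ (s / e)) *
        ((tqh e q h (Um N e (s % e) a a') * u ^ (a' : ℕ)) *
          (tqh e q h ((cmq Φ ^ j) c c') * Zh ^ (c' : ℕ))) := by
    intro a' c'
    rw [map_mul, map_mul]
    ring
  simp only [h3]
  have h4 : ∀ a' : Fin e, ∑ c', tqh e q h (C ((q : ℤ) ^ (J - e * (s / e))) * X ^ (s / e)) *
        ((tqh e q h (Um N e (s % e) a a') * u ^ (a' : ℕ)) *
          (tqh e q h ((cmq Φ ^ j) c c') * Zh ^ (c' : ℕ))) =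
      tqh e q h (C ((q : ℤ) ^ (J - e * (s / e))) * X ^ (s / e)) *
        ((tqh e q h (Um N e (s % e) a a') * u ^ (a' : ℕ)) * (Zh ^ j * Zh ^ (c : ℕ))) := by
    intro a'
    rw [← Finset.mul_sum, ← Finset.mul_sum, h2]
  simp only [h4]
  have h10 : tqh e q h (C ((q : ℤ) ^ (J - e * (s / e))) * X ^ (s / e)) =
      ((((q : ℤ) ^ (J - e * (s / e)) : ℤ)) : PowerSeries ℝ) *
        ((PowerSeries.C (q : ℝ) * (PowerSeries.C h + PowerSeries.X)) ^ e) ^ (s / e) := by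
    rw [map_mul, hqc, map_pow (tqh e q h) X, htX]
  rw [← Finset.mul_sum, ← Finset.sum_mul, h1, h10]
  unfold wS
  have h5 : e * (s / e) + s % e = s := Nat.div_add_mod s e
  have h6 : e * (s / e) ≤ J := by omega
  have h7 : ((((q : ℤ) ^ (J - e * (s / e)) : ℤ)) : PowerSeries ℝ) =
      PowerSeries.C ((q : ℝ) ^ (J - e * (s / e))) := by
    push_cast
    rw [map_pow, map_natCast]
  rw [h7]
  have h8 : PowerSeries.C ((q : ℝ) ^ J * X0 ^ (s % e)) =
      PowerSeries.C ((q : ℝ) ^ (J - e * (s / e))) * PowerSeries.C (q : ℝ) ^ (e * (s / e)) *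
        PowerSeries.C X0 ^ (s % e) := by
    rw [map_mul, map_pow, map_pow, map_pow, ← pow_add, Nat.sub_add_cancel h6]
  rw [h8, hu]
  conv_rhs => rw [← h5]
  rw [h5, ← pow_mul]
  have h9 : (PowerSeries.C h + PowerSeries.X : PowerSeries ℝ) ^ s =
      (PowerSeries.C h + PowerSeries.X) ^ (e * (s / e)) * (PowerSeries.C h + PowerSeries.X) ^ (s % e) := by
    rw [← pow_add, h5]
  rw [h9, mul_pow, mul_pow]
  ring

theorem Gm_eig (P : Fin m → Ptd n) (Nn : Fin m → ℕ) {e q N J D : ℕ} {X0 h : ℝ} {Φ : ℤ[X][X]}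
    (hΦ : Φ.Monic) (he : 1 ≤ e) (hq : 1 ≤ q) (hpow : X0 ^ e = ((q ^ e * N : ℕ) : ℝ))
    {Zh : PowerSeries ℝ} (hZ : Φ.eval₂ (tqh e q h) Zh = 0) (A : ℕ → ℕ → Mo P Nn → ℤ)
    (k : (∀ v, Fin (P v).d) × (Fin e × Fin Φ.natDegree)) :
    ∑ k', phiT P e q h (Gm P Nn e q N J D Φ A k k') * bS P e Φ X0 h Zh k' =
      gS P Nn e q J D X0 h Zh A * bS P e Φ X0 h Zh k := by
  have h1 : ∀ k', phiT P e q h (Gm P Nn e q N J D Φ A k k') * bS P e Φ X0 h Zh k' =
      ∑ s ∈ range (J + 1), ∑ j ∈ range D,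
        (mS (phi P (MG P Nn (A s j) k.1 k'.1) * bet P k'.1)) *
        cS (tqh e q h (C ((q : ℤ) ^ (J - e * (s / e))) * X ^ (s / e) * Um N e (s % e) k.2.1 k'.2.1 *
          (cmq Φ ^ j) k.2.2 k'.2.2) *
          ((PowerSeries.C X0 * (PowerSeries.C h + PowerSeries.X)) ^ (k'.2.1 : ℕ) *
            Zh ^ (k'.2.2 : ℕ))) := by
    intro k'
    unfold Gm bS
    rw [map_sum, Finset.sum_mul]
    refine sum_congr rfl fun s _ => ?_
    rw [map_sum, Finset.sum_mul]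
    refine sum_congr rfl fun j _ => ?_
    simp only [map_mul, phiT_ren, phiT_lt]
    ring
  simp only [h1]
  rw [Finset.sum_comm]
  unfold gS
  rw [Finset.sum_mul]
  refine sum_congr rfl fun s hs => ?_
  rw [Finset.sum_comm, Finset.sum_mul]
  refine sum_congr rfl fun j _ => ?_
  have hsJ : s ≤ J := by
    have := mem_range.1 hs
    omega
  rw [Fintype.sum_prod_type]
  simp only [Fintype.sum_prod_type]
  have h2 := anc_eig (J := J) hΦ he hq hpow hZ hsJ j k.2.1 k.2.2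
  have h3 : ∀ i' : (∀ v, Fin (P v).d), ∑ a', ∑ c', (mS (phi P (MG P Nn (A s j) k.1 i') * bet P i')) *
        cS (tqh e q h (C ((q : ℤ) ^ (J - e * (s / e))) * X ^ (s / e) * Um N e (s % e) k.2.1 a' *
          (cmq Φ ^ j) k.2.2 c') *
          ((PowerSeries.C X0 * (PowerSeries.C h + PowerSeries.X)) ^ (a' : ℕ) *
            Zh ^ (c' : ℕ))) =
      (mS (phi P (MG P Nn (A s j) k.1 i') * bet P i')) * cS (wS e q J X0 h Zh s j *
        ((PowerSeries.C X0 * (PowerSeries.C h + PowerSeries.X)) ^ (k.2.1 : ℕ) *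
          Zh ^ (k.2.2 : ℕ))) := by
    intro i'
    rw [← h2, map_sum, Finset.mul_sum]
    refine sum_congr rfl fun a' _ => ?_
    rw [map_sum, Finset.mul_sum]
  simp only [h3]
  rw [← Finset.sum_mul, ← map_sum, MG_eig]
  unfold bS
  rw [map_mul, map_mul]
  ring

end Pool.Agent.H98.FF
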