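import Pool.Agent.H98.FF.Defs
import Pool.Agent.H97.NW.PTF

/-!
# [H98 FF NMC] Numbers for the norm
-/

namespace Pool.Agent.H98.FF

open Finset

/-- the constant of `num_log` -/
noncomputable def CN (ν Q0 B κ1 : ℕ) (S : ℝ) : ℝ :=
  S * S + S + S * (1 + Q0 + 2 * (2 + ν) + 2 * (ν * (2 * ν + 1)) + 1 + Q0 + Q0 * (B + κ1))

theorem num_log (ν Q0 B κ1 c : ℕ) (hc : 1 ≤ c) (hB : 1 ≤ B)
    {s : ℕ} {S δ Y l0 Z W R : ℝ} (hs1 : 1 ≤ s) (hs : (s : ℝ) ≤ S) (hδ : 0 ≤ δ) (hY0 : 0 < Y)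
    {J D e q N : ℕ} (hD1 : 1 ≤ D) (hDQ : D ≤ Q0) (hq : 1 ≤ q) (hN : 1 ≤ N) (he : e ≤ Q0)
    (hR : 2 ≤ R) (hl0 : (c : ℝ) * Real.log (2 * R) ≤ l0) (hqR : (q : ℝ) ≤ R)
    (hJ : (J : ℝ) * l0 ≤ Y) (hNl : Real.log N ≤ e * l0)
    (b Nf d : Fin 2 → ℕ) (ell : Fin 2 → ℝ) (hb : ∀ v, 2 ≤ b v) (hN1 : ∀ v, 1 ≤ Nf v)
    (hd1 : ∀ v, 1 ≤ d v) (hdn : ∀ v, d v ≤ ν) (hbl : ∀ v, (c : ℝ) * Real.log (b v) ≤ ell v)
    (hlow : ∀ v, (c : ℝ) * l0 ≤ ell v) (hell : ∀ v, ell v ≤ Y)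
    (hNf : ∀ v, (Nf v : ℝ) * ell v ≤ Y + ell v) (hZ : Z = Real.exp (δ * Y))
    (hW : W = Real.exp (κ1 * l0)) {L : ℝ} (hL1 : 1 ≤ L)
    (hL : L ≤ (s.factorial : ℝ) * (1 + ((J + 1 : ℕ) : ℝ) * D *
      ((((∏ v, (Nf v * d v) : ℕ) : ℝ) * (Z * ∏ v, (((ν + 1) ^ 2 * b v : ℕ) : ℝ) ^ ν)) *
        ((q : ℝ) ^ J * N * ((B : ℝ) * W) ^ D))) ^ s) :
    Real.log L ≤ S * (δ * Y) + CN ν Q0 B κ1 S * (Y / (c * Real.log 2)) := by
  have hcR : (1 : ℝ) ≤ c := by exact_mod_cast hc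
  have hl2 : 1 / 2 ≤ Real.log 2 := by
    have := Real.log_two_gt_d9
    linarith
  have hl20 : 0 < Real.log 2 := by linarith
  have hl21 : Real.log 2 ≤ 1 := by
    have := Real.log_two_lt_d9
    linarith
  have hcl : 0 < (c : ℝ) * Real.log 2 := by positivity
  set l : ℝ := Y / (c * Real.log 2) with hl
  have hcb : ∀ v, (c : ℝ) * Real.log 2 ≤ ell v := by
    intro v
    refine le_trans ?_ (hbl v)
    refine mul_le_mul_of_nonneg_left (Real.log_le_log (by norm_num) ?_) (by linarith)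
    exact_mod_cast hb v
  have hell0 : ∀ v, 0 < ell v := fun v => lt_of_lt_of_le hcl (hcb v)
  have hl1 : 1 ≤ l := by
    rw [hl, le_div_iff₀ hcl, one_mul]
    exact (hcb 0).trans (hell 0)
  have hYc : Y / c ≤ l := by
    rw [hl]
    refine div_le_div_of_nonneg_left hY0.le hcl ?_
    nlinarith
  have hl0c : (c : ℝ) * Real.log 2 ≤ l0 := by
    refine le_trans ?_ hl0
    refine mul_le_mul_of_nonneg_left (Real.log_le_log (by norm_num) ?_) (by linarith)
    linarith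
  have hl00 : 0 < l0 := lt_of_lt_of_le hcl hl0c
  have hl0l : l0 ≤ l := by
    refine le_trans ?_ hYc
    rw [le_div_iff₀ (by linarith)]
    have h1 := (hlow 0).trans (hell 0)
    linarith
  have hJl : (J : ℝ) ≤ l := by
    rw [hl, le_div_iff₀ hcl]
    exact (mul_le_mul_of_nonneg_left hl0c (Nat.cast_nonneg _)).trans hJ
  -- the pieces
  have hlogle : ∀ x : ℝ, 0 < x → Real.log x ≤ x := fun x hx => by
    have := Real.log_le_sub_one_of_pos hx
    linarith
  have h1 : Real.log ((J + 1 : ℕ) : ℝ) ≤ l := by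
    have h2 : Real.log ((J + 1 : ℕ) : ℝ) ≤ ((J + 1 : ℕ) : ℝ) - 1 :=
      Real.log_le_sub_one_of_pos (by positivity)
    push_cast at h2 ⊢
    linarith
  have hQ0 : (0 : ℝ) ≤ Q0 := Nat.cast_nonneg _
  have hDR : (1 : ℝ) ≤ D := by exact_mod_cast hD1
  have hDQ' : (D : ℝ) ≤ Q0 := by exact_mod_cast hDQ
  have h2 : Real.log (D : ℝ) ≤ Q0 * l := by
    refine (hlogle _ (by linarith)).trans (hDQ'.trans ?_)
    nlinarith
  have hνR : (0 : ℝ) ≤ ν := Nat.cast_nonneg _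
  have h3 : ∀ v, Real.log ((Nf v * d v : ℕ) : ℝ) ≤ (2 + ν) * l := by
    intro v
    have a1 : (1 : ℝ) ≤ Nf v := by exact_mod_cast hN1 v
    have a2 : (1 : ℝ) ≤ d v := by exact_mod_cast hd1 v
    have a3 : (d v : ℝ) ≤ ν := by exact_mod_cast hdn v
    have a4 : (Nf v : ℝ) ≤ l + 1 := by
      have a5 : (Nf v : ℝ) - 1 ≤ l := by
        rw [hl, le_div_iff₀ hcl]
        have a6 := hNf v
        have a7 : ((Nf v : ℝ) - 1) * (c * Real.log 2) ≤ ((Nf v : ℝ) - 1) * ell v :=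
          mul_le_mul_of_nonneg_left (hcb v) (by linarith)
        linarith
      linarith
    push_cast
    rw [Real.log_mul (by linarith) (by linarith)]
    have a8 := hlogle (Nf v : ℝ) (by linarith)
    have a9 := hlogle (d v : ℝ) (by linarith)
    nlinarith
  have h4 : ∀ v, Real.log ((((ν + 1) ^ 2 * b v : ℕ) : ℝ) ^ ν) ≤ (ν * (2 * ν + 1)) * l := by
    intro v
    have a1 : (2 : ℝ) ≤ b v := by exact_mod_cast hb v
    rw [Real.log_pow]
    push_cast
    rw [Real.log_mul (by positivity) (by linarith), Real.log_pow]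
    have a2 : Real.log ((ν : ℝ) + 1) ≤ ν := by
      have := Real.log_le_sub_one_of_pos (x := (ν : ℝ) + 1) (by positivity)
      linarith
    have a3 : Real.log (b v : ℝ) ≤ l := by
      refine le_trans ?_ hYc
      rw [le_div_iff₀ (by linarith)]
      have := (hbl v).trans (hell v)
      linarith
    push_cast
    have a4 : 2 * Real.log ((ν : ℝ) + 1) + Real.log (b v : ℝ) ≤ (2 * ν + 1) * l := by nlinarith
    calc (ν : ℝ) * (2 * Real.log ((ν : ℝ) + 1) + Real.log (b v : ℝ)) ≤ ν * ((2 * ν + 1) * l) :=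
          mul_le_mul_of_nonneg_left a4 hνR
      _ = ν * (2 * ν + 1) * l := by ring
  have hqR1 : (1 : ℝ) ≤ q := by exact_mod_cast hq
  have h5 : Real.log ((q : ℝ) ^ J) ≤ l := by
    rw [Real.log_pow]
    have a1 : (c : ℝ) * Real.log q ≤ l0 := by
      refine le_trans ?_ hl0
      refine mul_le_mul_of_nonneg_left (Real.log_le_log (by linarith) ?_) (by linarith)
      linarith
    refine le_trans ?_ hYc
    rw [le_div_iff₀ (by linarith)]
    calc (J : ℝ) * Real.log q * c = J * (c * Real.log q) := by ring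
      _ ≤ J * l0 := mul_le_mul_of_nonneg_left a1 (Nat.cast_nonneg _)
      _ ≤ Y := hJ
  have h6 : Real.log (N : ℝ) ≤ Q0 * l := by
    refine hNl.trans ?_
    have : (e : ℝ) ≤ Q0 := by exact_mod_cast he
    exact mul_le_mul this hl0l hl00.le hQ0
  have hBR : (1 : ℝ) ≤ B := by exact_mod_cast hB
  have hW1 : 1 ≤ W := by
    rw [hW]
    exact Real.one_le_exp (by positivity)
  have h7 : Real.log (((B : ℝ) * W) ^ D) ≤ Q0 * (B + κ1) * l := by
    rw [Real.log_pow, Real.log_mul (by linarith) (by linarith)]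
    have a1 : Real.log W = κ1 * l0 := by rw [hW, Real.log_exp]
    rw [a1]
    have a2 := hlogle (B : ℝ) (by linarith)
    have a3 : Real.log (B : ℝ) + κ1 * l0 ≤ (B + κ1) * l := by
      have a4 : (κ1 : ℝ) * l0 ≤ κ1 * l := mul_le_mul_of_nonneg_left hl0l (Nat.cast_nonneg _)
      nlinarith
    have a5 : 0 ≤ Real.log (B : ℝ) + κ1 * l0 := by
      have := Real.log_nonneg hBR
      positivity
    calc (D : ℝ) * (Real.log (B : ℝ) + κ1 * l0) ≤ Q0 * ((B + κ1) * l) :=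
          mul_le_mul hDQ' a3 a5 hQ0
      _ = Q0 * (B + κ1) * l := by ring
  -- the product
  have hZ1 : 1 ≤ Z := by
    rw [hZ]
    exact Real.one_le_exp (by positivity)
  have hNd : ∀ v, (1 : ℝ) ≤ ((Nf v * d v : ℕ) : ℝ) := by
    intro v
    have : 1 ≤ Nf v * d v := Nat.one_le_iff_ne_zero.2
      (Nat.mul_ne_zero (by have := hN1 v; omega) (by have := hd1 v; omega))
    exact_mod_cast this
  have hPb : ∀ v, (1 : ℝ) ≤ (((ν + 1) ^ 2 * b v : ℕ) : ℝ) ^ ν := by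
    intro v
    refine one_le_pow₀ ?_
    have : 1 ≤ (ν + 1) ^ 2 * b v := Nat.one_le_iff_ne_zero.2
      (Nat.mul_ne_zero (by positivity) (by have := hb v; omega))
    exact_mod_cast this
  have hNR : (1 : ℝ) ≤ N := by exact_mod_cast hN
  have hJ1 : (1 : ℝ) ≤ ((J + 1 : ℕ) : ℝ) := by
    push_cast
    have : (0 : ℝ) ≤ J := Nat.cast_nonneg _
    linarith
  set P1 : ℝ := (((∏ v, (Nf v * d v) : ℕ) : ℝ)) with hP1
  set P2 : ℝ := ∏ v, (((ν + 1) ^ 2 * b v : ℕ) : ℝ) ^ ν with hP2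
  have hP1e : P1 = ((Nf 0 * d 0 : ℕ) : ℝ) * ((Nf 1 * d 1 : ℕ) : ℝ) := by
    rw [hP1, Fin.prod_univ_two]
    push_cast
    ring
  have hP2e : P2 = (((ν + 1) ^ 2 * b 0 : ℕ) : ℝ) ^ ν * (((ν + 1) ^ 2 * b 1 : ℕ) : ℝ) ^ ν := by
    rw [hP2, Fin.prod_univ_two]
  have hP11 : 1 ≤ P1 := by
    rw [hP1e]
    exact one_le_mul_of_one_le_of_one_le (hNd 0) (hNd 1)
  have hP21 : 1 ≤ P2 := by
    rw [hP2e]
    exact one_le_mul_of_one_le_of_one_le (hPb 0) (hPb 1)
  have hQ1 : 1 ≤ (q : ℝ) ^ J := one_le_pow₀ hqR1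
  have hBW : 1 ≤ ((B : ℝ) * W) ^ D := one_le_pow₀ (one_le_mul_of_one_le_of_one_le hBR hW1)
  have hlP1 : Real.log P1 ≤ 2 * (2 + ν) * l := by
    rw [hP1e, Real.log_mul (by linarith [hNd 0]) (by linarith [hNd 1])]
    linarith [h3 0, h3 1]
  have hlP2 : Real.log P2 ≤ 2 * (ν * (2 * ν + 1)) * l := by
    rw [hP2e, Real.log_mul (by linarith [hPb 0]) (by linarith [hPb 1])]
    linarith [h4 0, h4 1]
  set B1 : ℝ := ((J + 1 : ℕ) : ℝ) * D * ((P1 * (Z * P2)) * ((q : ℝ) ^ J * N * ((B : ℝ) * W) ^ D)) with hB1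
  have hB11 : 1 ≤ B1 := by
    rw [hB1]
    refine one_le_mul_of_one_le_of_one_le (one_le_mul_of_one_le_of_one_le hJ1 hDR) ?_
    refine one_le_mul_of_one_le_of_one_le (one_le_mul_of_one_le_of_one_le hP11
      (one_le_mul_of_one_le_of_one_le hZ1 hP21)) ?_
    exact one_le_mul_of_one_le_of_one_le (one_le_mul_of_one_le_of_one_le hQ1 hNR) hBW
  have hlB1 : Real.log B1 ≤ δ * Y + (1 + Q0 + 2 * (2 + ν) + 2 * (ν * (2 * ν + 1)) + 1 + Q0 +
      Q0 * (B + κ1)) * l := by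
    rw [hB1, Real.log_mul (by positivity) (by positivity), Real.log_mul (by positivity) (by positivity),
      Real.log_mul (by positivity) (by positivity), Real.log_mul (by positivity) (by positivity),
      Real.log_mul (by positivity) (by positivity), Real.log_mul (by positivity) (by positivity),
      Real.log_mul (by positivity) (by positivity)]
    have hlZ : Real.log Z = δ * Y := by rw [hZ, Real.log_exp]
    rw [hlZ]
    linarith
  have hs1R : (1 : ℝ) ≤ s := by exact_mod_cast hs1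
  have hfac : Real.log (s.factorial : ℝ) ≤ (s : ℝ) * s := by
    have a1 : (s.factorial : ℝ) ≤ (s : ℝ) ^ s := by exact_mod_cast Nat.factorial_le_pow s
    have a2 : (0 : ℝ) < s.factorial := by exact_mod_cast Nat.factorial_pos s
    refine (Real.log_le_log a2 a1).trans ?_
    rw [Real.log_pow]
    exact mul_le_mul_of_nonneg_left (hlogle _ (by linarith)) (by linarith)
  have h1B : Real.log (1 + B1) ≤ 1 + Real.log B1 := by
    have a1 : Real.log (1 + B1) ≤ Real.log (2 * B1) := Real.log_le_log (by linarith) (by linarith)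
    rw [Real.log_mul (by norm_num) (by linarith)] at a1
    linarith
  have hmain : Real.log L ≤ Real.log (s.factorial : ℝ) + s * Real.log (1 + B1) := by
    refine (Real.log_le_log (by linarith) hL).trans (le_of_eq ?_)
    rw [Real.log_mul (by positivity) (by positivity), Real.log_pow]
  have hS0 : 0 ≤ S := by linarith
  have hlB10 : 0 ≤ Real.log B1 := Real.log_nonneg hB11
  have e1 : (s : ℝ) * s ≤ S * S * l := by
    have : (s : ℝ) * s ≤ S * S := mul_le_mul hs hs (by linarith) hS0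
    nlinarith
  have e2 : (s : ℝ) * Real.log (1 + B1) ≤ S * (1 + Real.log B1) :=
    mul_le_mul hs h1B (Real.log_nonneg (by linarith)) hS0
  have e3 : S * (1 + Real.log B1) ≤ S * (l + (δ * Y + (1 + Q0 + 2 * (2 + ν) + 2 * (ν * (2 * ν + 1)) + 1 + Q0 +
      Q0 * (B + κ1)) * l)) := mul_le_mul_of_nonneg_left (by linarith) hS0
  unfold CN
  calc Real.log L ≤ S * S * l + S * (l + (δ * Y + (1 + Q0 + 2 * (2 + ν) + 2 * (ν * (2 * ν + 1)) + 1 + Q0 +
      Q0 * (B + κ1)) * l)) := by linarith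
    _ = _ := by ring

end Pool.Agent.H98.FF
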