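import Pool.Agent.H98.FF.ZNE

/-!
# [H98 FF RH] The algebraic relation of the anchor at the rational point
-/

namespace Pool.Agent.H98.FF

open Finset Polynomial Pool.Agent.H72.ES Pool.Agent.H87.SA Pool.Agent.H87.SA2

/-- the Taylor expansion as a ring homomorphism -/
noncomputable def tayR (h : ℝ) (hh : 0 ≤ h) : cvs h hh →+* PowerSeries ℝ where
  toFun a := tay h a.1
  map_one' := by
    have h1 : ((1 : cvs h hh) : PowerSeries ℝ) = PowerSeries.C 1 := by
      rw [map_one]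
      rfl
    show tay h ((1 : cvs h hh) : PowerSeries ℝ) = 1
    rw [h1, tay_C, map_one]
  map_mul' a b := tay_mul hh a.2 b.2
  map_zero' := tay_zero h
  map_add' a b := tay_add hh a.2 b.2

theorem tayR_apply (h : ℝ) (hh : 0 ≤ h) (a : cvs h hh) : tayR h hh a = tay h a.1 := rfl

theorem root_tay {e q : ℕ} {h : ℝ} (hh : 0 ≤ h) (Φ : ℤ[X][X]) {Z : PowerSeries ℝ} (hZ : Cv h Z)
    (h0 : Φ.eval₂ (tqh e q 0) Z = 0) : Φ.eval₂ (tqh e q h) (tay h Z) = 0 := by
  have hcv : Cv h ((PowerSeries.C (q : ℝ) * (PowerSeries.C 0 + PowerSeries.X)) ^ e) :=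
    cv_pow hh (Cv.mul hh (Cv.C _ _) (Cv.add hh (Cv.C _ _) (Cv.X h))) e
  set tt : cvs h hh := ⟨_, hcv⟩ with htt
  set τ : ℤ[X] →+* cvs h hh := eval₂RingHom (Int.castRingHom (cvs h hh)) tt with hτ
  have h1 : (cvs h hh).subtype.comp τ = tqh e q 0 := by
    refine Polynomial.ringHom_ext (fun a => ?_) ?_
    · simp
    · simp [hτ, tqh, htt]
  have h2 : (tayR h hh).comp τ = tqh e q h := by
    refine Polynomial.ringHom_ext (fun a => ?_) ?_
    · simp
    · rw [RingHom.comp_apply, hτ, coe_eval₂RingHom, eval₂_X, tayR_apply, htt]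
      show tay h ((PowerSeries.C (q : ℝ) * (PowerSeries.C 0 + PowerSeries.X)) ^ e) = _
      have hc1 : Cv h (PowerSeries.C (q : ℝ) * (PowerSeries.C 0 + PowerSeries.X)) :=
        Cv.mul hh (Cv.C _ _) (Cv.add hh (Cv.C _ _) (Cv.X h))
      rw [tay_pow hh hc1, tay_mul hh (Cv.C _ _) (Cv.add hh (Cv.C _ _) (Cv.X h)), tay_C,
        tay_add hh (Cv.C _ _) (Cv.X h), tay_C, tay_X, map_zero, zero_add]
      simp [tqh]
  have h3 : Φ.eval₂ τ (⟨Z, hZ⟩ : cvs h hh) = 0 := by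
    apply (cvs h hh).subtype_injective
    rw [Polynomial.hom_eval₂, h1, map_zero]
    exact h0
  have h4 := congrArg (tayR h hh) h3
  rw [Polynomial.hom_eval₂, h2, map_zero] at h4
  exact h4

theorem IntA.root_h {D Dl κ e M : ℕ} {X0 R : ℝ} {an : Pool.Agent.H87.AX.AnchX D Dl κ e M X0 R}
    {q N B κ1 : ℕ} (ia : IntA an q N B κ1) (hR : 0 ≤ R) (hX : R < X0) :
    ia.Φ.eval₂ (tqh e q (1 / X0)) (tay (1 / X0) (an.Z.map an.ψ)) = 0 := by
  have hh : (0 : ℝ) ≤ 1 / X0 := by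
    have : 0 < X0 := by linarith
    positivity
  exact root_tay hh ia.Φ (an.cv hR hX) ia.root

end Pool.Agent.H98.FF
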