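import Pool.Agent.H98.FF.VAN
import Pool.Agent.H98.FF.EIG
import Pool.Agent.H98.FF.NMC
import Pool.Agent.H98.FF.RH
import Pool.Agent.H98.FF.RP

/-!
# [H98 FF COR] The norm of the auxiliary function: a polynomial in `X_0, X_1, t` of large index
-/

namespace Pool.Agent.H98.FF

open Finset Polynomial Pool.Agent.H72.ES Pool.Agent.H87.SA Pool.Agent.H87.SA2 Pool.Agent.H8.AW Pool.Agent.H52.AC
  Pool.Agent.H97.NW H4AR Pool.Agent.H97.FB

variable {n : ℕ}

theorem bS_zero (P : Fin 2 → Ptd n) {e : ℕ} (he : 1 ≤ e) {Φ : ℤ[X][X]} (hΦ : 1 ≤ Φ.natDegree)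
    (X0 h : ℝ) (Zh : PowerSeries ℝ) :
    bS P e Φ X0 h Zh (fun v => ⟨0, (P v).C.d1⟩, ⟨0, he⟩, ⟨0, hΦ⟩) = 1 := by
  unfold bS bet
  simp

/-- the scale of the anchor -/
theorem scl_facts {c : ℕ} {X0 R : ℝ} {P : Fin 2 → Ptd n} (hc : 3 ≤ c) (hR : 2 ≤ R)
    (h : Scl c X0 R P) : 8 * R ≤ X0 ∧ (c : ℝ) * Real.log (2 * R) ≤ Real.log X0 ∧
      0 < Real.log X0 := by
  have h1 : (1 : ℝ) ≤ 2 * R := by linarith
  have h2 : 8 * R ≤ (2 * R) ^ c := by
    calc 8 * R ≤ (2 * R) ^ 3 := by nlinarith [sq_nonneg R, mul_pos (by linarith : (0:ℝ) < R) (by linarith : (0:ℝ) < R)]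
      _ ≤ (2 * R) ^ c := pow_le_pow_right₀ h1 hc
  have h3 : 8 * R ≤ X0 := h2.trans h.RX
  refine ⟨h3, ?_, Real.log_pos (by linarith)⟩
  rw [← Real.log_pow]
  exact Real.log_le_log (by positivity) h.RX

theorem norm_core (ν Q0 B κ1 : ℕ) (hν : 4 ≤ ν) (hB : 1 ≤ B) : ∃ S C K1 : ℝ, 1 ≤ S ∧ 0 ≤ C ∧ 1 ≤ K1 ∧
    ∀ {Dn Dl κ e M : ℕ} {X0 R : ℝ} (an : Pool.Agent.H87.AX.AnchX Dn Dl κ e M X0 R) {q N : ℕ}
      (_ : IntA an q N B κ1) (P : Fin 2 → Ptd ν) (c : ℕ), cA ν ≤ c → 3 ≤ c →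
      Bnd Q0 Dn Dl κ e M X0 R → Scl c X0 R P → (q : ℝ) ≤ R → ∀ Y : ℝ, (∀ v, K1 * (P v).ell ≤ Y) →
      ∀ (δ θ : ℝ), 0 ≤ δ → ∀ A : ℕ → ℕ → Mo P (Nf P Y) → ℤ, NZA (Jx X0 Y) Dn A →
        (∀ s j μ, |((A s j μ : ℤ) : ℝ)| ≤ Real.exp (δ * Y)) →
        (∀ (l : ℕ) (K : Fin 2 → ℕ), (l : ℝ) * Real.log X0 + ∑ v, (P v).ell * (K v : ℝ) < θ →
          ∑ μ, Fl an (Jx X0 Y) A l μ *
            ((∏ v, PowerSeries.coeff (K v) ((P v).psi ((μ v).1, (μ v).2)) : ℤ) : ℝ) = 0) →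
        ∃ N0 : MvPolynomial (Fin (2 + 1)) ℤ, N0 ≠ 0 ∧
          (∀ v, (N0.degreeOf (Fin.castSucc v) : ℝ) * (P v).ell ≤ 2 * S * Y) ∧
          (N0.degreeOf (Fin.last 2) : ℝ) * Real.log N ≤ 2 * S * Y ∧
          Real.log (l1 N0) ≤ S * (δ * Y) + C * (Y / (c * Real.log 2)) ∧
          ∀ a : Fin (2 + 1) →₀ ℕ,
            (a (Fin.last 2) : ℝ) * Real.log X0 + ∑ v, (P v).ell * (a (Fin.castSucc v) : ℝ) < θ →
            (sh (rpt P N) (toQ N0)).coeff a = 0 := by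
  set S : ℝ := (ν : ℝ) ^ 2 * ((Q0 + 1) * B) with hS
  have hνR : (4 : ℝ) ≤ ν := by exact_mod_cast hν
  have hBR : (1 : ℝ) ≤ B := by exact_mod_cast hB
  have hQR : (0 : ℝ) ≤ Q0 := Nat.cast_nonneg _
  have hS1 : 1 ≤ S := by
    rw [hS]
    refine one_le_mul_of_one_le_of_one_le (one_le_pow₀ (by linarith)) ?_
    exact one_le_mul_of_one_le_of_one_le (by linarith) hBR
  set K1 : ℝ := (ν : ℝ) ^ 2 + ν + 2 + (1 + B * Q0) * Q0 with hK1
  have hK11 : 1 ≤ K1 := by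
    rw [hK1]
    have : 0 ≤ (1 + (B : ℝ) * Q0) * Q0 := by positivity
    nlinarith
  have hC0 : 0 ≤ CN ν Q0 B κ1 S := by
    unfold CN
    positivity
  refine ⟨S, CN ν Q0 B κ1 S, K1, hS1, hC0, hK11, ?_⟩
  intro Dn Dl κ e M X0 R an q N ia P c hcA hc3 hbnd hscl hqR Y hY δ θ hδ A hNZ hA hvan
  obtain ⟨h8R, hl0c, hl00⟩ := scl_facts hc3 hbnd.R2 hscl
  have hR2 := hbnd.R2
  have he1 := ia.e1
  have hq1 := ia.q1
  have hN1 := ia.N1
  have hX0 : 0 < X0 := by linarith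
  have hThrA : ∀ v, (P v).Thr (cA ν) := fun v => (P v).thr_mono hcA (hscl.thr v)
  have hc1 : (1 : ℝ) ≤ c := by
    have : 1 ≤ c := by omega
    exact_mod_cast this
  have hl2 : 0 < Real.log 2 := Real.log_pos (by norm_num)
  have hell0 : ∀ v, 0 < (P v).ell := by
    intro v
    have := ((P v).ell_ge (hscl.thr v)).2
    exact lt_of_lt_of_le (by positivity) this
  have hY1 : ∀ v, (P v).ell ≤ Y := fun v =>
    (le_mul_of_one_le_left (hell0 v).le hK11).trans (hY v)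
  have hY0 : 0 < Y := lt_of_lt_of_le (hell0 0) (hY1 0)
  have hl0ell : ∀ v, Real.log X0 ≤ (P v).ell := by
    intro v
    have h1 := hscl.low v
    have h2 : Real.log X0 ≤ c * Real.log X0 := le_mul_of_one_le_left hl00.le hc1
    linarith
  set J := Jx X0 Y with hJ
  have hJl : (J : ℝ) * Real.log X0 ≤ Y := by
    have h1 : (J : ℝ) ≤ Y / Real.log X0 := Nat.floor_le (by positivity)
    rwa [le_div_iff₀ hl00] at h1
  have hDf : ∀ v, ((Df P Y v : ℕ) : ℝ) ≤ Y / (P v).ell := fun v =>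
    Nat.floor_le (div_nonneg hY0.le (hell0 v).le)
  have hDfν : ∀ v, ν ≤ Df P Y v := by
    intro v
    apply Nat.le_floor
    rw [le_div_iff₀ (hell0 v)]
    refine le_trans (mul_le_mul_of_nonneg_right ?_ (hell0 v).le) (hY v)
    rw [hK1]
    have : 0 ≤ (1 + (B : ℝ) * Q0) * Q0 := by positivity
    nlinarith
  have hNf1 : ∀ v, 1 ≤ Nf P Y v := by
    intro v
    have h1 := hDfν v
    have h2 := (P v).C.dn
    unfold Nf
    omega
  have hNfl : ∀ v, ((Nf P Y v : ℕ) : ℝ) * (P v).ell ≤ Y := by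
    intro v
    have h1 : Nf P Y v ≤ Df P Y v := by
      have := (P v).C.d1
      unfold Nf
      omega
    have h2 : ((Nf P Y v : ℕ) : ℝ) ≤ Y / (P v).ell := le_trans (by exact_mod_cast h1) (hDf v)
    rwa [le_div_iff₀ (hell0 v)] at h2
  have hNR : (1 : ℝ) ≤ N := by exact_mod_cast hN1
  have hqR1 : (1 : ℝ) ≤ q := by exact_mod_cast hq1
  have hNl : Real.log (N : ℝ) ≤ e * Real.log X0 := by
    rw [← Real.log_pow, ia.pow]
    refine Real.log_le_log (by linarith) ?_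
    push_cast
    exact le_mul_of_one_le_left (by linarith) (one_le_pow₀ hqR1)
  have heQ : (e : ℝ) ≤ Q0 := by exact_mod_cast hbnd.e_le
  -- the function
  set Zh := tay (1 / X0) (an.Z.map an.ψ) with hZh
  have hroot := ia.root_h (by linarith : (0 : ℝ) ≤ R) (by linarith : R < X0)
  have hg0 : gS P (Nf P Y) e q J Dn X0 (1 / X0) Zh A ≠ 0 :=
    gS_ne hν P hThrA (Nf P Y) an hbnd.DDl he1 hR2 h8R hq1 J A hNZ
  have heig := Gm_eig (J := J) (D := Dn) P (Nf P Y) ia.monic he1 hq1 ia.pow hroot A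
  have hb1 := bS_zero P he1 ia.deg1 X0 (1 / X0) Zh
  -- the bounds
  set W : ℝ := X0 ^ κ1 with hW
  have hW1 : 1 ≤ W := one_le_pow₀ (by linarith)
  set Bd : ℝ := ((J + 1 : ℕ) : ℝ) * Dn *
      ((((∏ v, (Nf P Y v * (P v).d) : ℕ) : ℝ) * (Real.exp (δ * Y) *
        ∏ v, (((ν + 1) ^ 2 * (P v).b : ℕ) : ℝ) ^ ν)) *
        ((q : ℝ) ^ J * N * ((B : ℝ) * W) ^ Dn)) with hBd
  have hBd0 : 0 ≤ Bd := by positivity
  have : IsDomain (MvPowerSeries (Fin 2) (PowerSeries ℝ)) := NoZeroDivisors.to_isDomain _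
  obtain ⟨N0, hN00, ⟨f, hf⟩, hdeg, hl1⟩ := low_coeff (Gm P (Nf P Y) e q N J Dn ia.Φ A)
    (phiT P e q (1 / X0)) (bS P e ia.Φ X0 (1 / X0) Zh) (i0 := (fun v => ⟨0, (P v).C.d1⟩, ⟨0, he1⟩, ⟨0, ia.deg1⟩))
    (by rw [hb1]; exact one_ne_zero) hg0 heig
    (Fin.lastCases (J / e + 1 + B * Dn) fun v => Nf P Y v + ν * ν) hBd0
    (fun i j v => by
      refine Fin.lastCases ?_ (fun v => ?_) v
      · rw [Fin.lastCases_last]
        exact Gm_deg_last P _ e q N J Dn ia.cdeg A i j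
      · rw [Fin.lastCases_castSucc]
        exact Gm_deg_cast P _ e q N J Dn ia.Φ A i j v)
    (fun i j => Gm_l1 P _ hq1 hN1 ia.deg hB hW1 ia.le A hA i j)
  set s := Fintype.card ((∀ v, Fin (P v).d) × (Fin e × Fin ia.Φ.natDegree)) with hs
  have hscard : s = (∏ v, (P v).d) * (e * ia.Φ.natDegree) := by
    rw [hs]
    simp [Fintype.card_pi, Fintype.card_prod]
  have hs1 : 1 ≤ s := Fintype.card_pos_iff.2
    ⟨(fun v => ⟨0, (P v).C.d1⟩, ⟨0, he1⟩, ⟨0, ia.deg1⟩)⟩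
  have hsS : (s : ℝ) ≤ S := by
    rw [hscard, Fin.prod_univ_two, hS]
    push_cast
    have a0 : ((P 0).d : ℝ) ≤ ν := by exact_mod_cast (P 0).C.dn
    have a1 : ((P 1).d : ℝ) ≤ ν := by exact_mod_cast (P 1).C.dn
    have a2 : (ia.Φ.natDegree : ℝ) ≤ B := by exact_mod_cast ia.deg
    refine mul_le_mul ?_ ?_ (by positivity) (by positivity)
    · rw [pow_two]
      exact mul_le_mul a0 a1 (Nat.cast_nonneg _) (by linarith)
    · exact mul_le_mul (by linarith) a2 (Nat.cast_nonneg _) (by linarith)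
  refine ⟨N0, hN00, fun v => ?_, ?_, ?_, ?_⟩
  · have h1 := hdeg (Fin.castSucc v)
    rw [Fin.lastCases_castSucc] at h1
    have h2 : (N0.degreeOf (Fin.castSucc v) : ℝ) ≤ S * ((Nf P Y v : ℕ) + (ν : ℝ) * ν) := by
      have h3 : (N0.degreeOf (Fin.castSucc v) : ℝ) ≤ (s : ℝ) * ((Nf P Y v : ℕ) + (ν : ℝ) * ν) := by
        exact_mod_cast h1
      exact h3.trans (mul_le_mul_of_nonneg_right hsS (by positivity))
    have h4 : (ν : ℝ) * ν * (P v).ell ≤ Y := by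
      refine le_trans (mul_le_mul_of_nonneg_right ?_ (hell0 v).le) (hY v)
      rw [hK1]
      have : 0 ≤ (1 + (B : ℝ) * Q0) * Q0 := by positivity
      nlinarith
    calc (N0.degreeOf (Fin.castSucc v) : ℝ) * (P v).ell
        ≤ S * ((Nf P Y v : ℕ) + (ν : ℝ) * ν) * (P v).ell :=
          mul_le_mul_of_nonneg_right h2 (hell0 v).le
      _ = S * (((Nf P Y v : ℕ) : ℝ) * (P v).ell + (ν : ℝ) * ν * (P v).ell) := by ring
      _ ≤ S * (Y + Y) := mul_le_mul_of_nonneg_left (add_le_add (hNfl v) h4) (by linarith)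
      _ = 2 * S * Y := by ring
  · have h1 := hdeg (Fin.last 2)
    rw [Fin.lastCases_last] at h1
    have hlN0 : 0 ≤ Real.log (N : ℝ) := Real.log_nonneg hNR
    have h2 : (N0.degreeOf (Fin.last 2) : ℝ) ≤ S * (((J / e : ℕ) : ℝ) + (1 + (B : ℝ) * Dn)) := by
      have h3 : (N0.degreeOf (Fin.last 2) : ℝ) ≤ (s : ℝ) * (((J / e : ℕ) : ℝ) + (1 + (B : ℝ) * Dn)) := by
        have h4 : (N0.degreeOf (Fin.last 2) : ℝ) ≤ ((s * (J / e + 1 + B * Dn) : ℕ) : ℝ) := by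
          exact_mod_cast h1
        refine h4.trans (le_of_eq ?_)
        push_cast
        ring
      exact h3.trans (mul_le_mul_of_nonneg_right hsS (by positivity))
    have h5 : ((J / e : ℕ) : ℝ) * Real.log N ≤ Y := by
      have a1 : ((J / e : ℕ) : ℝ) * e ≤ J := by
        have := Nat.div_mul_le_self J e
        exact_mod_cast this
      calc ((J / e : ℕ) : ℝ) * Real.log N ≤ ((J / e : ℕ) : ℝ) * (e * Real.log X0) :=
            mul_le_mul_of_nonneg_left hNl (Nat.cast_nonneg _)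
        _ = (((J / e : ℕ) : ℝ) * e) * Real.log X0 := by ring
        _ ≤ J * Real.log X0 := mul_le_mul_of_nonneg_right a1 hl00.le
        _ ≤ Y := hJl
    have h6 : (1 + (B : ℝ) * Dn) * Real.log N ≤ Y := by
      have a1 : (Dn : ℝ) ≤ Q0 := by exact_mod_cast hbnd.DDl.trans hbnd.Dl_le
      have a2 : Real.log (N : ℝ) ≤ Q0 * (P 0).ell := by
        refine hNl.trans ?_
        exact mul_le_mul heQ (hl0ell 0) hl00.le hQR
      calc (1 + (B : ℝ) * Dn) * Real.log N ≤ (1 + (B : ℝ) * Q0) * (Q0 * (P 0).ell) := by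
            refine mul_le_mul ?_ a2 hlN0 (by positivity)
            have := mul_le_mul_of_nonneg_left a1 (by linarith : (0 : ℝ) ≤ B)
            linarith
        _ = ((1 + B * Q0) * Q0) * (P 0).ell := by ring
        _ ≤ K1 * (P 0).ell := by
            refine mul_le_mul_of_nonneg_right ?_ (hell0 0).le
            rw [hK1]
            nlinarith
        _ ≤ Y := hY 0
    calc (N0.degreeOf (Fin.last 2) : ℝ) * Real.log N
        ≤ S * (((J / e : ℕ) : ℝ) + (1 + (B : ℝ) * Dn)) * Real.log N :=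
          mul_le_mul_of_nonneg_right h2 hlN0
      _ = S * (((J / e : ℕ) : ℝ) * Real.log N + (1 + (B : ℝ) * Dn) * Real.log N) := by ring
      _ ≤ S * (Y + Y) := mul_le_mul_of_nonneg_left (add_le_add h5 h6) (by linarith)
      _ = 2 * S * Y := by ring
  · refine num_log ν Q0 B κ1 c (by omega) hB (s := s) (S := S) (δ := δ) (Y := Y)
      (l0 := Real.log X0) (Z := Real.exp (δ * Y)) (W := W) (R := R) hs1 hsS hδ hY0 (J := J) (D := Dn)
      (e := e) (q := q) (N := N) hbnd.D1 (hbnd.DDl.trans hbnd.Dl_le) hq1 hN1 hbnd.e_le hR2 hl0c hqR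
      hJl hNl (fun v => (P v).b) (fun v => Nf P Y v) (fun v => (P v).d) (fun v => (P v).ell)
      (fun v => (P v).C.b2) hNf1 (fun v => (P v).C.d1) (fun v => (P v).C.dn)
      (fun v => ((P v).ell_ge (hscl.thr v)).1) hscl.low hY1
      (fun v => by
        have h1 := hNfl v
        have h2 := hell0 v
        show ((Nf P Y v : ℕ) : ℝ) * (P v).ell ≤ Y + (P v).ell
        linarith) rfl ?_ (one_le_l1 hN00) hl1
    rw [hW, ← Real.exp_log hX0, ← Real.exp_nat_mul, Real.exp_log hX0]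
  · intro a ha
    refine idx P he1 hq1 (by positivity : (0 : ℝ) < 1 / X0) ?_ (fun v => ((P v).kap_facts hν (hThrA v)).1)
      N0 hl00.le (fun K l hKl => ?_) a ha
    · rw [mul_one_div, _root_.div_pow, ia.pow]
      push_cast
      have hq0 : (q : ℝ) ^ e ≠ 0 := pow_ne_zero _ (by linarith)
      have hN0 : (N : ℝ) ≠ 0 := by linarith
      field_simp
    · rw [hf]
      refine van_mul (W := fun v => (P v).ell) (fun v => (hell0 v).le) hl00.le _ f (fun K l hKl => ?_) K l hKl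
      rw [coeff_gS_Fl P (Nf P Y) an (by linarith) (by linarith) q J A K l, hvan l K hKl, mul_zero]

end Pool.Agent.H98.FF
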