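import Pool.Agent.H98.FF.TT

/-!
# [H98 FF DL] Degrees and lengths of the entries of `Gm`; renaming of variables
-/

namespace Pool.Agent.H98.FF

open Finset Polynomial Pool.Agent.H72.ES Pool.Agent.H87.SA Pool.Agent.H87.SA2 Pool.Agent.H8.AW Pool.Agent.H52.AC
  Pool.Agent.H97.NW H4AR

variable {m n : ℕ}

theorem l1_rename {a b : ℕ} {f : Fin a → Fin b} (hf : Function.Injective f)
    (p : MvPolynomial (Fin a) ℤ) : l1 (MvPolynomial.rename f p) = l1 p := by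
  classical
  unfold l1
  rw [MvPolynomial.support_rename_of_injective hf, Finset.sum_image]
  · refine sum_congr rfl fun e _ => ?_
    rw [MvPolynomial.coeff_rename_mapDomain f hf]
  · intro x _ y _ hxy
    exact Finsupp.mapDomain_injective hf hxy

theorem degreeOf_rename_le {a b : ℕ} {f : Fin a → Fin b} (hf : Function.Injective f)
    (p : MvPolynomial (Fin a) ℤ) (v : Fin a) :
    (MvPolynomial.rename f p).degreeOf (f v) ≤ p.degreeOf v :=
  (MvPolynomial.degreeOf_rename_of_injective hf v).le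

theorem degreeOf_rename_notMem {a b : ℕ} {f : Fin a → Fin b} (p : MvPolynomial (Fin a) ℤ) (w : Fin b)
    (hw : ∀ v, f v ≠ w) : (MvPolynomial.rename f p).degreeOf w = 0 := by
  classical
  by_contra hne
  have h1 : w ∈ (MvPolynomial.rename f p).vars := by
    by_contra hc
    apply hne
    rw [MvPolynomial.degreeOf_eq_sup]
    refine Nat.le_zero.1 (Finset.sup_le fun e he => ?_)
    by_contra h2
    exact hc ((MvPolynomial.mem_vars_iff_mem_support _).2 ⟨e, he, Finsupp.mem_support_iff.2 (by omega)⟩)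
  have h2 := MvPolynomial.vars_rename f p h1
  rw [Finset.mem_image] at h2
  obtain ⟨v, _, hv⟩ := h2
  exact hw v hv

theorem deg_aeval {m' : ℕ} (v w : Fin m') (q : ℤ[X]) :
    (Polynomial.aeval (MvPolynomial.X w : MvPolynomial (Fin m') ℤ) q).degreeOf v ≤
      if v = w then q.natDegree else 0 := by
  classical
  rw [Polynomial.aeval_eq_sum_range]
  refine (MvPolynomial.degreeOf_sum_le _ _ _).trans ?_
  refine Finset.sup_le fun i hi => ?_
  rw [mem_range] at hi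
  have h1 : (q.coeff i • (MvPolynomial.X w : MvPolynomial (Fin m') ℤ) ^ i) =
      MvPolynomial.C (q.coeff i) * MvPolynomial.X w ^ i := by
    rw [MvPolynomial.C_mul']
  rw [h1]
  refine (MvPolynomial.degreeOf_C_mul_le _ _ _).trans ?_
  refine (MvPolynomial.degreeOf_pow_le _ _ _).trans ?_
  rw [MvPolynomial.degreeOf_X]
  split_ifs
  · omega
  · omega

theorem l1_C_le {m' : ℕ} (a : ℤ) : l1 (MvPolynomial.C a : MvPolynomial (Fin m') ℤ) ≤ |(a : ℝ)| := by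
  classical
  have h : (MvPolynomial.C a : MvPolynomial (Fin m') ℤ).support ⊆ {0} := by
    intro e he
    rw [MvPolynomial.mem_support_iff, MvPolynomial.coeff_C] at he
    rw [Finset.mem_singleton]
    by_contra h
    exact he (if_neg fun h' => h h'.symm)
  rw [l1_eq_sum _ {0} h, Finset.sum_singleton, MvPolynomial.coeff_C, if_pos rfl]

theorem l1_X_le {m' : ℕ} (v : Fin m') : l1 (MvPolynomial.X v : MvPolynomial (Fin m') ℤ) ≤ 1 := by
  classical
  have h : (MvPolynomial.X v : MvPolynomial (Fin m') ℤ).support ⊆ {Finsupp.single v 1} := by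
    rw [MvPolynomial.support_X]
  rw [l1_eq_sum _ _ h, Finset.sum_singleton, MvPolynomial.coeff_X, if_pos rfl, Int.cast_one, abs_one]

theorem l1_Xpow_le {m' : ℕ} (v : Fin m') (a : ℕ) :
    l1 ((MvPolynomial.X v : MvPolynomial (Fin m') ℤ) ^ a) ≤ 1 := by
  induction a with
  | zero => rw [pow_zero, l1_one]
  | succ a ih =>
    rw [pow_succ]
    refine (l1_mul_le _ _).trans ?_
    exact mul_le_one₀ ih (l1_nonneg _) (l1_X_le v)

theorem l1_aeval_le {m' : ℕ} (v : Fin m') (q : ℤ[X]) :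
    l1 (Polynomial.aeval (MvPolynomial.X v : MvPolynomial (Fin m') ℤ) q) ≤ L1 q := by
  classical
  have h0 : Polynomial.aeval (MvPolynomial.X v : MvPolynomial (Fin m') ℤ) q =
      ∑ i ∈ q.support, MvPolynomial.C (q.coeff i) * MvPolynomial.X v ^ i := by
    rw [Polynomial.aeval_def, Polynomial.eval₂_eq_sum, Polynomial.sum_def]
    rfl
  rw [h0]
  refine (l1_sum_le _ _).trans ?_
  unfold L1
  refine Finset.sum_le_sum fun i _ => ?_
  refine (l1_mul_le _ _).trans ?_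
  calc l1 (MvPolynomial.C (q.coeff i) : MvPolynomial (Fin m') ℤ) *
        l1 ((MvPolynomial.X v : MvPolynomial (Fin m') ℤ) ^ i)
      ≤ |((q.coeff i : ℤ) : ℝ)| * 1 :=
        mul_le_mul (l1_C_le _) (l1_Xpow_le v i) (l1_nonneg _) (abs_nonneg _)
    _ = |((q.coeff i : ℤ) : ℝ)| := mul_one _

theorem castSucc_inj' : Function.Injective (Fin.castSucc : Fin m → Fin (m + 1)) :=
  Fin.castSucc_injective m

theorem l1_ren (f : MvPolynomial (Fin m) ℤ) : l1 (ren f) = l1 f := l1_rename castSucc_inj' f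

theorem l1_lt (p : ℤ[X]) : l1 (lt (m := m) p) ≤ L1 p := l1_aeval_le _ p

theorem ren_deg (f : MvPolynomial (Fin m) ℤ) (v : Fin m) :
    (ren f).degreeOf (Fin.castSucc v) ≤ f.degreeOf v := degreeOf_rename_le castSucc_inj' f v

theorem ren_deg_last (f : MvPolynomial (Fin m) ℤ) : (ren f).degreeOf (Fin.last m) = 0 :=
  degreeOf_rename_notMem f _ fun v => (Fin.castSucc_lt_last v).ne

theorem lt_deg_cast (p : ℤ[X]) (v : Fin m) : (lt (m := m) p).degreeOf (Fin.castSucc v) = 0 := by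
  have h := deg_aeval (Fin.castSucc v) (Fin.last m) p
  rw [if_neg (Fin.castSucc_lt_last v).ne] at h
  exact Nat.le_zero.1 h

theorem lt_deg_last (p : ℤ[X]) : (lt (m := m) p).degreeOf (Fin.last m) ≤ p.natDegree := by
  have h := deg_aeval (Fin.last m) (Fin.last m) p
  rwa [if_pos rfl] at h

/-- the polynomial of the anchor in an entry of `Gm` -/
noncomputable def ap (q J N e : ℕ) (Φ : ℤ[X][X]) (s j : ℕ) (a a' : Fin e)
    (c c' : Fin Φ.natDegree) : ℤ[X] :=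
  C ((q : ℤ) ^ (J - e * (s / e))) * X ^ (s / e) * Um N e (s % e) a a' * (cmq Φ ^ j) c c'

theorem ap_deg {q J N e D B : ℕ} {Φ : ℤ[X][X]} (hB : ∀ j, (Φ.coeff j).natDegree ≤ B) {s j : ℕ}
    (hs : s ≤ J) (hj : j < D) (a a' : Fin e) (c c' : Fin Φ.natDegree) :
    (ap q J N e Φ s j a a' c c').natDegree ≤ J / e + 1 + B * D := by
  unfold ap
  have h1 : (C ((q : ℤ) ^ (J - e * (s / e))) * X ^ (s / e) : ℤ[X]).natDegree ≤ J / e :=
    (natDegree_C_mul_X_pow_le _ _).trans (Nat.div_le_div_right hs)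
  have h2 := Um_deg N e (s % e) a a'
  have h3 := cmq_pow_deg hB j c c'
  have h4 : B * j ≤ B * D := Nat.mul_le_mul_left _ hj.le
  have h5 := natDegree_mul_le (p := C ((q : ℤ) ^ (J - e * (s / e))) * X ^ (s / e))
    (q := Um N e (s % e) a a')
  have h6 := natDegree_mul_le (p := C ((q : ℤ) ^ (J - e * (s / e))) * X ^ (s / e) *
    Um N e (s % e) a a') (q := (cmq Φ ^ j) c c')
  omega

theorem ap_L1 {q J N e D B : ℕ} {Φ : ℤ[X][X]} (hq : 1 ≤ q) (hN : 1 ≤ N) (hΦ : Φ.natDegree ≤ B)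
    (hB1 : 1 ≤ B) {W : ℝ} (hW : 1 ≤ W) (hL : ∀ j, L1 (Φ.coeff j) ≤ W) {s j : ℕ}
    (hj : j < D) (a a' : Fin e) (c c' : Fin Φ.natDegree) :
    L1 (ap q J N e Φ s j a a' c c') ≤ (q : ℝ) ^ J * N * ((B : ℝ) * W) ^ D := by
  unfold ap
  have hq' : (1 : ℝ) ≤ q := by exact_mod_cast hq
  have hN' : (1 : ℝ) ≤ N := by exact_mod_cast hN
  have hB' : (1 : ℝ) ≤ B := by exact_mod_cast hB1
  have hBW : 1 ≤ (B : ℝ) * W := one_le_mul_of_one_le_of_one_le hB' hW
  have h1 : L1 (C ((q : ℤ) ^ (J - e * (s / e))) * X ^ (s / e) : ℤ[X]) ≤ (q : ℝ) ^ J := by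
    rw [L1_monomial]
    push_cast
    rw [abs_of_nonneg (by positivity)]
    exact pow_le_pow_right₀ hq' (by omega)
  have h2 := Um_L1 hN e (s % e) a a'
  have h3 : L1 ((cmq Φ ^ j) c c') ≤ ((B : ℝ) * W) ^ D := by
    refine (cmq_pow_L1 hW hL j c c').trans ?_
    calc ((Φ.natDegree : ℝ) * W) ^ j ≤ ((B : ℝ) * W) ^ j := by
          have : (Φ.natDegree : ℝ) ≤ B := by exact_mod_cast hΦ
          gcongr
      _ ≤ ((B : ℝ) * W) ^ D := pow_le_pow_right₀ hBW hj.le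
  refine (L1_mul_le _ _).trans (mul_le_mul ?_ h3 (L1_nonneg _) (by positivity))
  exact (L1_mul_le _ _).trans (mul_le_mul h1 h2 (L1_nonneg _) (by positivity))

theorem Gm_eq (P : Fin m → Ptd n) (Nn : Fin m → ℕ) (e q N J D : ℕ) (Φ : ℤ[X][X])
    (A : ℕ → ℕ → Mo P Nn → ℤ) (k k' : (∀ v, Fin (P v).d) × (Fin e × Fin Φ.natDegree)) :
    Gm P Nn e q N J D Φ A k k' = ∑ s ∈ range (J + 1), ∑ j ∈ range D,
      ren (MG P Nn (A s j) k.1 k'.1) * lt (ap q J N e Φ s j k.2.1 k'.2.1 k.2.2 k'.2.2) := rfl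

theorem Gm_deg_cast (P : Fin m → Ptd n) (Nn : Fin m → ℕ) (e q N J D : ℕ) (Φ : ℤ[X][X])
    (A : ℕ → ℕ → Mo P Nn → ℤ) (k k' : (∀ v, Fin (P v).d) × (Fin e × Fin Φ.natDegree)) (v : Fin m) :
    (Gm P Nn e q N J D Φ A k k').degreeOf (Fin.castSucc v) ≤ Nn v + n * n := by
  have hF := degreeOf_fil (m + 1) (Fin.castSucc v)
  rw [Gm_eq]
  refine hF.sum _ _ _ fun s _ => hF.sum _ _ _ fun j _ => ?_
  refine (MvPolynomial.degreeOf_mul_le _ _ _).trans ?_
  rw [lt_deg_cast, add_zero]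
  exact (ren_deg _ _).trans (MG_deg P Nn (A s j) k.1 k'.1 v)

theorem Gm_deg_last (P : Fin m → Ptd n) (Nn : Fin m → ℕ) (e q N J D : ℕ) {B : ℕ} {Φ : ℤ[X][X]}
    (hB : ∀ j, (Φ.coeff j).natDegree ≤ B)
    (A : ℕ → ℕ → Mo P Nn → ℤ) (k k' : (∀ v, Fin (P v).d) × (Fin e × Fin Φ.natDegree)) :
    (Gm P Nn e q N J D Φ A k k').degreeOf (Fin.last m) ≤ J / e + 1 + B * D := by
  have hF := degreeOf_fil (m + 1) (Fin.last m)
  rw [Gm_eq]
  refine hF.sum _ _ _ fun s hs => hF.sum _ _ _ fun j hj => ?_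
  refine (MvPolynomial.degreeOf_mul_le _ _ _).trans ?_
  rw [ren_deg_last, zero_add]
  refine (lt_deg_last _).trans (ap_deg hB ?_ (mem_range.1 hj) _ _ _ _)
  have := mem_range.1 hs
  omega

theorem Gm_l1 (P : Fin m → Ptd n) (Nn : Fin m → ℕ) {e q N J D B : ℕ} {Φ : ℤ[X][X]}
    (hq : 1 ≤ q) (hN : 1 ≤ N) (hΦ : Φ.natDegree ≤ B)
    (hB1 : 1 ≤ B) {W : ℝ} (hW : 1 ≤ W) (hL : ∀ j, L1 (Φ.coeff j) ≤ W)
    (A : ℕ → ℕ → Mo P Nn → ℤ) {Z : ℝ} (hA : ∀ s j μ, |((A s j μ : ℤ) : ℝ)| ≤ Z)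
    (k k' : (∀ v, Fin (P v).d) × (Fin e × Fin Φ.natDegree)) :
    l1 (Gm P Nn e q N J D Φ A k k') ≤ ((J + 1 : ℕ) : ℝ) * D *
      ((((∏ v, (Nn v * (P v).d) : ℕ) : ℝ) * (Z * ∏ v, (((n + 1) ^ 2 * (P v).b : ℕ) : ℝ) ^ n)) *
        ((q : ℝ) ^ J * N * ((B : ℝ) * W) ^ D)) := by
  rw [Gm_eq]
  set T : ℝ := (((∏ v, (Nn v * (P v).d) : ℕ) : ℝ) * (Z * ∏ v, (((n + 1) ^ 2 * (P v).b : ℕ) : ℝ) ^ n)) *
        ((q : ℝ) ^ J * N * ((B : ℝ) * W) ^ D) with hT
  have h1 : ∀ s ∈ range (J + 1), l1 (∑ j ∈ range D, ren (MG P Nn (A s j) k.1 k'.1) *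
      lt (ap q J N e Φ s j k.2.1 k'.2.1 k.2.2 k'.2.2)) ≤ D * T := by
    intro s _
    refine (l1_sum_le _ _).trans ?_
    have h2 : ∀ j ∈ range D, l1 (ren (MG P Nn (A s j) k.1 k'.1) *
      lt (ap q J N e Φ s j k.2.1 k'.2.1 k.2.2 k'.2.2)) ≤ T := by
      intro j hj
      refine (l1_mul_le _ _).trans ?_
      rw [l1_ren]
      refine mul_le_mul (MG_l1 P Nn (A s j) (hA s j) k.1 k'.1)
        ((l1_lt _).trans (ap_L1 hq hN hΦ hB1 hW hL (mem_range.1 hj) _ _ _ _)) (l1_nonneg _) ?_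
      exact (l1_nonneg _).trans (MG_l1 P Nn (A s j) (hA s j) k.1 k'.1)
    refine (sum_le_sum h2).trans (le_of_eq ?_)
    rw [sum_const, card_range, nsmul_eq_mul]
  refine (l1_sum_le _ _).trans ((sum_le_sum h1).trans (le_of_eq ?_))
  rw [sum_const, card_range, nsmul_eq_mul]
  ring

end Pool.Agent.H98.FF
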