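import Pool.Agent.H97.NW.NZD
import Pool.Agent.H87.AX.Defs

/-!
# MP_821da1_nt, Theorem F (helper97), section 4: separated heights, with an anchor -- definitions

`IntA an q N B κ1`: the anchor series `Z(T)` is integral over `ℤ[t]`, `t = (q T)^e`, with a monic equation `Φ` of degree at
most `B` in both variables and coefficients of length at most `X0^κ1`; the rational point is `T = 1/X0`, `t = 1/N`.
`A = ℤ[X_v, t] = MvPolynomial (Fin (m+1)) ℤ`, `t` is the last variable. `S = ℝ⟦z⟧⟦t_v⟧`, `T = 1/X0 + z`.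
`phiT : A → S`: `X_v ↦ x_v + κ_v t_v`, `t ↦ (q (1/X0 + z))^e`.
`gS`: the local expansion of `q^J ∑_(s, j, μ) A(s,j,μ) x0^(s mod e) T^s Z^j μ`.
`Gm`: the matrix of multiplication by this function over `A`, in the basis `∏ y_v^(i_v) * u^a * Z^c`, `u = x0 T`, `u^e = N t`
(`i_v < d_v`, `a < e`, `c < deg Φ`); `bS` its eigenvector.
-/

namespace Pool.Agent.H98.FF

open Finset Polynomial Pool.Agent.H72.ES Pool.Agent.H87.SA Pool.Agent.H87.SA2 Pool.Agent.H8.AW Pool.Agent.H52.AC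
  Pool.Agent.H97.NW H4AR

/-- the substitution `t = (q T)^e`, `T = h + z`; `h = 0` is the point at infinity -/
noncomputable def tqh (e q : ℕ) (h : ℝ) : ℤ[X] →+* PowerSeries ℝ :=
  eval₂RingHom (Int.castRingHom (PowerSeries ℝ))
    ((PowerSeries.C (q : ℝ) * (PowerSeries.C h + PowerSeries.X)) ^ e)

/-- the anchor is integral over `ℤ[t]`, `t = (q T)^e` -/
structure IntA {D Dl κ e M : ℕ} {X0 R : ℝ} (an : Pool.Agent.H87.AX.AnchX D Dl κ e M X0 R)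
    (q N B κ1 : ℕ) where
  e1 : 1 ≤ e
  q1 : 1 ≤ q
  N1 : 1 ≤ N
  pow : X0 ^ e = ((q ^ e * N : ℕ) : ℝ)
  Φ : ℤ[X][X]
  monic : Φ.Monic
  deg1 : 1 ≤ Φ.natDegree
  deg : Φ.natDegree ≤ B
  cdeg : ∀ j, (Φ.coeff j).natDegree ≤ B
  le : ∀ j, L1 (Φ.coeff j) ≤ X0 ^ κ1
  root : Φ.eval₂ (tqh e q 0) (an.Z.map an.ψ) = 0

/-- the companion matrix of a monic polynomial over `ℤ[t]` -/
noncomputable def cmq (Φ : ℤ[X][X]) : Matrix (Fin Φ.natDegree) (Fin Φ.natDegree) ℤ[X] := fun i j =>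
  if (i : ℕ) + 1 < Φ.natDegree then (if (j : ℕ) = i + 1 then 1 else 0) else - Φ.coeff j

/-- the matrix of multiplication by `u^s`, `s < e`, `u^e = N t` -/
noncomputable def Um (N e s : ℕ) : Matrix (Fin e) (Fin e) ℤ[X] := fun a a' =>
  if (a' : ℕ) = a + s then 1 else if (a' : ℕ) + e = a + s then C (N : ℤ) * X else 0

variable {m n : ℕ}

/-- the polynomials in the `X_v` -/
noncomputable def ren : MvPolynomial (Fin m) ℤ →+* MvPolynomial (Fin (m + 1)) ℤ :=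
  (MvPolynomial.rename Fin.castSucc : MvPolynomial (Fin m) ℤ →ₐ[ℤ] MvPolynomial (Fin (m + 1)) ℤ)

/-- the polynomials in `t` -/
noncomputable def lt : ℤ[X] →+* MvPolynomial (Fin (m + 1)) ℤ :=
  (Polynomial.aeval (MvPolynomial.X (Fin.last m) : MvPolynomial (Fin (m + 1)) ℤ) :
    ℤ[X] →ₐ[ℤ] MvPolynomial (Fin (m + 1)) ℤ)

/-- `ℤ⟦t_v⟧ → ℝ⟦z⟧⟦t_v⟧` -/
noncomputable def mS : MvPowerSeries (Fin m) ℤ →+* MvPowerSeries (Fin m) (PowerSeries ℝ) :=
  MvPowerSeries.map (Int.castRingHom (PowerSeries ℝ))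

/-- `ℝ⟦z⟧ → ℝ⟦z⟧⟦t_v⟧` -/
noncomputable def cS : PowerSeries ℝ →+* MvPowerSeries (Fin m) (PowerSeries ℝ) := MvPowerSeries.C

/-- the substitution `X_v ↦ x_v + κ_v t_v`, `t ↦ (q (h + z))^e` -/
noncomputable def phiT (P : Fin m → Ptd n) (e q : ℕ) (h : ℝ) :
    MvPolynomial (Fin (m + 1)) ℤ →+* MvPowerSeries (Fin m) (PowerSeries ℝ) :=
  MvPolynomial.eval₂Hom (Int.castRingHom _)
    (Fin.lastCases (cS ((PowerSeries.C (q : ℝ) * (PowerSeries.C h + PowerSeries.X)) ^ e))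
      fun v => mS (eps v (xs (P v).x (P v).kap)))

/-- the function of the anchor, made integral: `q^J x0^(s mod e) T^s Z^j` at `T = h + z` -/
noncomputable def wS (e q J : ℕ) (X0 h : ℝ) (Zh : PowerSeries ℝ) (s j : ℕ) : PowerSeries ℝ :=
  PowerSeries.C ((q : ℝ) ^ J * X0 ^ (s % e)) * ((PowerSeries.C h + PowerSeries.X) ^ s * Zh ^ j)

/-- the local expansion of the auxiliary function -/
noncomputable def gS (P : Fin m → Ptd n) (Nn : Fin m → ℕ) (e q J D : ℕ) (X0 h : ℝ)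
    (Zh : PowerSeries ℝ) (A : ℕ → ℕ → Mo P Nn → ℤ) : MvPowerSeries (Fin m) (PowerSeries ℝ) :=
  ∑ s ∈ range (J + 1), ∑ j ∈ range D, mS (gl P Nn (A s j)) * cS (wS e q J X0 h Zh s j)

/-- the matrix of multiplication by the auxiliary function -/
noncomputable def Gm (P : Fin m → Ptd n) (Nn : Fin m → ℕ) (e q N J D : ℕ) (Φ : ℤ[X][X])
    (A : ℕ → ℕ → Mo P Nn → ℤ) :
    Matrix ((∀ v, Fin (P v).d) × (Fin e × Fin Φ.natDegree))
      ((∀ v, Fin (P v).d) × (Fin e × Fin Φ.natDegree)) (MvPolynomial (Fin (m + 1)) ℤ) := fun k k' =>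
  ∑ s ∈ range (J + 1), ∑ j ∈ range D, ren (MG P Nn (A s j) k.1 k'.1) *
    lt (C ((q : ℤ) ^ (J - e * (s / e))) * X ^ (s / e) * Um N e (s % e) k.2.1 k'.2.1 *
      (cmq Φ ^ j) k.2.2 k'.2.2)

/-- the local expansion of the basis -/
noncomputable def bS (P : Fin m → Ptd n) (e : ℕ) (Φ : ℤ[X][X]) (X0 h : ℝ) (Zh : PowerSeries ℝ)
    (k : (∀ v, Fin (P v).d) × (Fin e × Fin Φ.natDegree)) : MvPowerSeries (Fin m) (PowerSeries ℝ) :=
  mS (bet P k.1) * cS ((PowerSeries.C X0 * (PowerSeries.C h + PowerSeries.X)) ^ (k.2.1 : ℕ) *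
    Zh ^ (k.2.2 : ℕ))

end Pool.Agent.H98.FF
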