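import Pool.Agent.H98.FF.ZNE

/-!
# [H98 FF IDX] The index at the rational point

`t - 1/N = (q (h + z))^e - (q h)^e = w(z)` has order exactly `1` in `z`.
-/

namespace Pool.Agent.H98.FF

open Finset Polynomial Pool.Agent.H72.ES Pool.Agent.H87.SA Pool.Agent.H87.SA2 Pool.Agent.H8.AW Pool.Agent.H52.AC
  Pool.Agent.H97.NW H4AR

variable {m n : ℕ}

/-- `t - 1/N` as a series in `z` -/
noncomputable def wz (e q : ℕ) (h : ℝ) : PowerSeries ℝ :=
  (PowerSeries.C (q : ℝ) * (PowerSeries.C h + PowerSeries.X)) ^ e - PowerSeries.C (((q : ℝ) * h) ^ e)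

theorem wz_fac {e q : ℕ} (he : 1 ≤ e) (hq : 1 ≤ q) {h : ℝ} (hh : 0 < h) :
    ∃ w' : PowerSeries ℝ, wz e q h = PowerSeries.X * w' ∧ PowerSeries.constantCoeff w' ≠ 0 := by
  have hq' : (0 : ℝ) < q := by exact_mod_cast hq
  have h1 : wz e q h = ((PowerSeries.C (q : ℝ) * (PowerSeries.C h + PowerSeries.X)) -
      PowerSeries.C ((q : ℝ) * h)) *
      ∑ i ∈ range e, (PowerSeries.C (q : ℝ) * (PowerSeries.C h + PowerSeries.X)) ^ i *
        (PowerSeries.C ((q : ℝ) * h)) ^ (e - 1 - i) := by
    unfold wz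
    rw [mul_comm (_ - _), geom_sum₂_mul, map_pow]
  have h2 : (PowerSeries.C (q : ℝ) * (PowerSeries.C h + PowerSeries.X)) -
      PowerSeries.C ((q : ℝ) * h) = PowerSeries.X * PowerSeries.C (q : ℝ) := by
    rw [map_mul]
    ring
  refine ⟨PowerSeries.C (q : ℝ) * ∑ i ∈ range e,
    (PowerSeries.C (q : ℝ) * (PowerSeries.C h + PowerSeries.X)) ^ i *
        (PowerSeries.C ((q : ℝ) * h)) ^ (e - 1 - i), ?_, ?_⟩
  · rw [h1, h2]
    ring
  · rw [map_mul, map_sum, PowerSeries.constantCoeff_C]
    refine mul_ne_zero hq'.ne' ?_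
    have h3 : ∀ i ∈ range e, PowerSeries.constantCoeff
        ((PowerSeries.C (q : ℝ) * (PowerSeries.C h + PowerSeries.X)) ^ i *
        (PowerSeries.C ((q : ℝ) * h)) ^ (e - 1 - i)) = ((q : ℝ) * h) ^ (e - 1) := by
      intro i hi
      have hi' := mem_range.1 hi
      rw [map_mul, map_pow, map_pow, map_mul, map_add, PowerSeries.constantCoeff_C,
        PowerSeries.constantCoeff_C, PowerSeries.constantCoeff_C, PowerSeries.constantCoeff_X,
        add_zero, ← pow_add]
      congr 1
      omega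
    rw [sum_congr rfl h3, sum_const, card_range, nsmul_eq_mul]
    have he' : (0 : ℝ) < e := by exact_mod_cast he
    positivity

theorem wz_pow_lt {e q : ℕ} (he : 1 ≤ e) (hq : 1 ≤ q) {h : ℝ} (hh : 0 < h) {l l' : ℕ}
    (hl : l < l') : PowerSeries.coeff l (wz e q h ^ l') = 0 := by
  obtain ⟨w', hw, _⟩ := wz_fac he hq hh
  rw [hw, mul_pow, PowerSeries.coeff_X_pow_mul', if_neg (by omega)]

theorem wz_pow_self {e q : ℕ} (he : 1 ≤ e) (hq : 1 ≤ q) {h : ℝ} (hh : 0 < h) (l : ℕ) :
    PowerSeries.coeff l (wz e q h ^ l) ≠ 0 := by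
  obtain ⟨w', hw, hne⟩ := wz_fac he hq hh
  rw [hw, mul_pow, PowerSeries.coeff_X_pow_mul', if_pos le_rfl, Nat.sub_self,
    PowerSeries.coeff_zero_eq_constantCoeff_apply, map_pow]
  exact pow_ne_zero _ hne

/-- the rational point -/
noncomputable def rpt (P : Fin m → Ptd n) (N : ℕ) : Fin (m + 1) → ℚ :=
  Fin.lastCases (1 / (N : ℚ)) fun v => ((P v).x : ℚ)

/-- the substitution in the shifted coordinates -/
noncomputable def rhoT (P : Fin m → Ptd n) (e q : ℕ) (h : ℝ) :
    MvPolynomial (Fin (m + 1)) ℚ →+* MvPowerSeries (Fin m) (PowerSeries ℝ) :=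
  MvPolynomial.eval₂Hom (cS.comp ((PowerSeries.C (R := ℝ)).comp (Rat.castHom ℝ)))
    (Fin.lastCases (cS (wz e q h)) fun v =>
      mS (eps v (PowerSeries.C (P v).kap * PowerSeries.X)))

theorem phiT_sh (P : Fin m → Ptd n) {e q N : ℕ} {h : ℝ}
    (hN : ((q : ℝ) * h) ^ e = 1 / (N : ℝ)) (f : MvPolynomial (Fin (m + 1)) ℤ) :
    phiT P e q h f = rhoT P e q h (sh (rpt P N) (toQ f)) := by
  have h1 : phiT P e q h = ((rhoT P e q h).comp (sh (rpt P N) :
      MvPolynomial (Fin (m + 1)) ℚ →ₐ[ℚ] MvPolynomial (Fin (m + 1)) ℚ).toRingHom).comp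
      (MvPolynomial.map (Int.castRingHom ℚ)) := by
    refine MvPolynomial.ringHom_ext (fun a => ?_) (fun v => ?_)
    · simp
    · refine Fin.lastCases ?_ (fun v => ?_) v
      · simp only [phiT, MvPolynomial.coe_eval₂Hom, MvPolynomial.eval₂_X, Fin.lastCases_last,
          RingHom.comp_apply, MvPolynomial.map_X]
        show _ = rhoT P e q h (sh (rpt P N) (MvPolynomial.X (Fin.last m)))
        rw [sh_X, map_add]
        simp only [rhoT, MvPolynomial.coe_eval₂Hom, MvPolynomial.eval₂_X, Fin.lastCases_last,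
          MvPolynomial.eval₂_C, rpt, RingHom.comp_apply]
        rw [← map_add]
        congr 1
        unfold wz
        rw [hN]
        simp
      · simp only [phiT, MvPolynomial.coe_eval₂Hom, MvPolynomial.eval₂_X, Fin.lastCases_castSucc,
          RingHom.comp_apply, MvPolynomial.map_X]
        show _ = rhoT P e q h (sh (rpt P N) (MvPolynomial.X (Fin.castSucc v)))
        rw [sh_X, map_add]
        simp only [rhoT, MvPolynomial.coe_eval₂Hom, MvPolynomial.eval₂_X, Fin.lastCases_castSucc,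
          MvPolynomial.eval₂_C, rpt, RingHom.comp_apply]
        have h2 : (PowerSeries.C (Rat.castHom ℝ ((P v).x : ℚ)) : PowerSeries ℝ) =
            (((P v).x : ℤ) : PowerSeries ℝ) := by
          simp
        rw [h2]
        have h3 : (cS (((P v).x : ℤ) : PowerSeries ℝ) : MvPowerSeries (Fin m) (PowerSeries ℝ)) =
            mS (eps v (PowerSeries.C (P v).x)) := by
          have h4 : (PowerSeries.C (P v).x : PowerSeries ℤ) = ((P v).x : PowerSeries ℤ) := by simp
          rw [h4, map_intCast, map_intCast, map_intCast]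
        rw [h3, ← map_add, ← map_add]
        congr 2
        unfold xs
        ring
  exact congrArg (fun φ => φ f) h1

theorem coeff_rhoT (P : Fin m → Ptd n) (e q : ℕ) (h : ℝ) (g : MvPolynomial (Fin (m + 1)) ℚ)
    (K : Fin m →₀ ℕ) : MvPowerSeries.coeff K (rhoT P e q h g) =
      ∑ a ∈ g.support with (∀ v, a (Fin.castSucc v) = K v),
        PowerSeries.C (((g.coeff a : ℚ) : ℝ) * ∏ v, (((P v).kap : ℤ) : ℝ) ^ (K v)) *
          wz e q h ^ (a (Fin.last m)) := by
  classical
  have h1 : rhoT P e q h g = ∑ a ∈ g.support, cS (PowerSeries.C ((g.coeff a : ℚ) : ℝ) *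
      wz e q h ^ (a (Fin.last m))) * mS (box fun v =>
        (PowerSeries.C (P v).kap * PowerSeries.X) ^ (a (Fin.castSucc v))) := by
    unfold rhoT
    rw [MvPolynomial.coe_eval₂Hom, MvPolynomial.eval₂_eq']
    refine sum_congr rfl fun a _ => ?_
    rw [Fin.prod_univ_castSucc]
    simp only [Fin.lastCases_castSucc, Fin.lastCases_last]
    rw [← prod_eps, map_prod, map_mul, map_pow]
    simp only [map_pow, RingHom.comp_apply]
    rw [mul_assoc]
    congr 1
    rw [mul_comm]
  rw [h1, map_sum, Finset.sum_filter]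
  refine sum_congr rfl fun a _ => ?_
  have h2 : MvPowerSeries.coeff K (mS (box fun v =>
        (PowerSeries.C (P v).kap * PowerSeries.X) ^ (a (Fin.castSucc v)))) =
      if (∀ v, a (Fin.castSucc v) = K v) then
        PowerSeries.C (∏ v, (((P v).kap : ℤ) : ℝ) ^ (K v)) else 0 := by
    rw [coeff_mS, coeff_box]
    have h3 : ∀ v, PowerSeries.coeff (K v)
        ((PowerSeries.C (P v).kap * PowerSeries.X) ^ (a (Fin.castSucc v))) =
        if a (Fin.castSucc v) = K v then (P v).kap ^ (K v) else 0 := by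
      intro v
      rw [mul_pow, ← map_pow, PowerSeries.coeff_C_mul_X_pow]
      by_cases h4 : K v = a (Fin.castSucc v)
      · rw [if_pos h4, if_pos h4.symm, h4]
      · rw [if_neg h4, if_neg (fun hc => h4 hc.symm)]
    rw [Finset.prod_congr rfl fun v _ => h3 v]
    by_cases h4 : ∀ v, a (Fin.castSucc v) = K v
    · rw [if_pos h4, Finset.prod_congr rfl fun v _ => if_pos (h4 v)]
      push_cast
      rw [map_prod]
      refine Finset.prod_congr rfl fun v _ => ?_
      rw [map_pow]
      simp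
    · rw [if_neg h4]
      push Not at h4
      obtain ⟨v, hv⟩ := h4
      rw [Finset.prod_eq_zero (mem_univ v) (if_neg hv), Int.cast_zero]
  unfold cS
  rw [MvPowerSeries.coeff_C_mul, h2]
  split_ifs
  · rw [map_mul]
    ring
  · rw [mul_zero]

theorem idx (P : Fin m → Ptd n) {e q N : ℕ} {h : ℝ} (he : 1 ≤ e) (hq : 1 ≤ q) (hh : 0 < h)
    (hN : ((q : ℝ) * h) ^ e = 1 / (N : ℝ)) (hκ : ∀ v, (P v).kap ≠ 0)
    (f : MvPolynomial (Fin (m + 1)) ℤ) {l0 θ : ℝ} (hl0 : 0 ≤ l0)
    (hv : ∀ (K : Fin m →₀ ℕ) (l : ℕ), (l : ℝ) * l0 + ∑ v, (P v).ell * (K v : ℝ) < θ →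
      PowerSeries.coeff l (MvPowerSeries.coeff K (phiT P e q h f)) = 0)
    (a : Fin (m + 1) →₀ ℕ)
    (ha : (a (Fin.last m) : ℝ) * l0 + ∑ v, (P v).ell * (a (Fin.castSucc v) : ℝ) < θ) :
    (sh (rpt P N) (toQ f)).coeff a = 0 := by
  classical
  -- strong induction on the exponent of `t - 1/N`
  obtain ⟨l, hl⟩ : ∃ l, l = a (Fin.last m) := ⟨_, rfl⟩
  induction l using Nat.strong_induction_on generalizing a with
  | _ l ih =>
    set g := sh (rpt P N) (toQ f) with hg
    set K : Fin m →₀ ℕ := Finsupp.equivFunOnFinite.symm (fun v => a (Fin.castSucc v)) with hK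
    have hKv : ∀ v, K v = a (Fin.castSucc v) := fun v => rfl
    have h1 := hv K l (by
      rw [hl]
      simp only [hKv]
      exact ha)
    rw [phiT_sh P hN f, ← hg, coeff_rhoT, map_sum] at h1
    by_contra hne
    have hmem : a ∈ g.support.filter (fun a => ∀ v, a (Fin.castSucc v) = K v) := by
      rw [mem_filter]
      exact ⟨MvPolynomial.mem_support_iff.2 hne, fun v => rfl⟩
    rw [Finset.sum_eq_single_of_mem a hmem] at h1
    · rw [PowerSeries.coeff_C_mul, ← hl] at h1
      rcases mul_eq_zero.1 h1 with h2 | h2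
      · rcases mul_eq_zero.1 h2 with h3 | h3
        · exact hne (by exact_mod_cast h3)
        · rw [Finset.prod_eq_zero_iff] at h3
          obtain ⟨v, _, h4⟩ := h3
          have h5 : (((P v).kap : ℤ) : ℝ) = 0 := by
            by_contra h6
            exact pow_ne_zero _ h6 h4
          exact hκ v (by exact_mod_cast h5)
      · exact wz_pow_self he hq hh l h2
    · intro b hb hba
      rw [mem_filter] at hb
      have hbl : b (Fin.last m) ≠ l := by
        intro hc
        apply hba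
        ext i
        refine Fin.lastCases ?_ (fun v => ?_) i
        · rw [hc, hl]
        · rw [hb.2 v, hKv]
      rw [PowerSeries.coeff_C_mul]
      rcases lt_or_gt_of_ne hbl with h2 | h2
      · exfalso
        have h3 : ((b (Fin.last m) : ℕ) : ℝ) * l0 + ∑ v, (P v).ell * (b (Fin.castSucc v) : ℝ) < θ := by
          have h4 : ((b (Fin.last m) : ℕ) : ℝ) * l0 ≤ (a (Fin.last m) : ℝ) * l0 := by
            refine mul_le_mul_of_nonneg_right ?_ hl0
            rw [← hl]
            exact_mod_cast h2.le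
          have h5 : ∑ v, (P v).ell * (b (Fin.castSucc v) : ℝ) =
              ∑ v, (P v).ell * (a (Fin.castSucc v) : ℝ) := by
            refine sum_congr rfl fun v _ => ?_
            rw [hb.2 v, hKv]
          linarith
        exact MvPolynomial.mem_support_iff.1 hb.1 (ih (b (Fin.last m)) h2 b h3 rfl)
      · rw [wz_pow_lt he hq hh h2, mul_zero]

end Pool.Agent.H98.FF
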