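import Pool.Agent.H98.FF.TT

/-!
# [H98 FF KRO] A sum of products `∑ w_l x_l` of roots of monic polynomials is the root of a monic polynomial, explicitly

`Ψ l` monic with root `ω l`, `f` monic with roots `ξ l`: the matrix `KG` of multiplication by `∑_l ω_l ξ_l` in the basis
`∏ ω_l^(α_l) ∏ ξ_l^(β_l)`.
-/

namespace Pool.Agent.H98.FF

open Finset Polynomial Pool.Agent.H72.ES

variable {L : ℕ}

/-- the index set of the basis -/
abbrev KI (Ψ : Fin L → ℤ[X][X]) (f : ℤ[X][X]) : Type :=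
  (∀ l, Fin (Ψ l).natDegree) × (Fin L → Fin f.natDegree)

/-- the matrix of multiplication by `∑ ω_l ξ_l` -/
noncomputable def KG (Ψ : Fin L → ℤ[X][X]) (f : ℤ[X][X]) : Matrix (KI Ψ f) (KI Ψ f) ℤ[X] := fun k k' =>
  ∑ l, ∑ a : Fin (Ψ l).natDegree, ∑ b : Fin f.natDegree,
    if k' = (Function.update k.1 l a, Function.update k.2 l b) then
      cmq (Ψ l) (k.1 l) a * cmq f (k.2 l) b else 0

/-- the basis -/
noncomputable def KU {S : Type*} [CommRing S] (Ψ : Fin L → ℤ[X][X]) (f : ℤ[X][X]) (ω ξ : Fin L → S)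
    (k : KI Ψ f) : S := (∏ l, ω l ^ (k.1 l : ℕ)) * ∏ l, ξ l ^ (k.2 l : ℕ)

theorem prod_upd {S : Type*} [CommRing S] {I : Fin L → Type} (ω : Fin L → S) (val : ∀ l, I l → ℕ)
    (α : ∀ l, I l) (l : Fin L) (a : I l) :
    ∏ l', ω l' ^ val l' (Function.update α l a l') =
      ω l ^ val l a * ∏ l' ∈ univ.erase l, ω l' ^ val l' (α l') := by
  rw [← Finset.mul_prod_erase univ _ (mem_univ l), Function.update_self]
  congr 1
  refine prod_congr rfl fun l' hl' => ?_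
  rw [Function.update_of_ne (ne_of_mem_erase hl')]

theorem KG_eig {S : Type*} [CommRing S] {Ψ : Fin L → ℤ[X][X]} {f : ℤ[X][X]}
    (hΨ : ∀ l, (Ψ l).Monic) (hf : f.Monic) (φ : ℤ[X] →+* S) (ω ξ : Fin L → S)
    (hω : ∀ l, (Ψ l).eval₂ φ (ω l) = 0) (hξ : ∀ l, f.eval₂ φ (ξ l) = 0) (k : KI Ψ f) :
    ∑ k', φ (KG Ψ f k k') * KU Ψ f ω ξ k' = (∑ l, ω l * ξ l) * KU Ψ f ω ξ k := by
  classical
  have h1 : ∀ k', φ (KG Ψ f k k') * KU Ψ f ω ξ k' =
      ∑ l, ∑ a : Fin (Ψ l).natDegree, ∑ b : Fin f.natDegree,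
        if k' = (Function.update k.1 l a, Function.update k.2 l b) then
          φ (cmq (Ψ l) (k.1 l) a * cmq f (k.2 l) b) *
            KU Ψ f ω ξ (Function.update k.1 l a, Function.update k.2 l b) else 0 := by
    intro k'
    unfold KG
    rw [map_sum, Finset.sum_mul]
    refine sum_congr rfl fun l _ => ?_
    rw [map_sum, Finset.sum_mul]
    refine sum_congr rfl fun a _ => ?_
    rw [map_sum, Finset.sum_mul]
    refine sum_congr rfl fun b _ => ?_
    split_ifs with h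
    · rw [h]
    · rw [map_zero, zero_mul]
  simp only [h1]
  rw [Finset.sum_comm, Finset.sum_mul]
  refine sum_congr rfl fun l _ => ?_
  rw [Finset.sum_comm]
  have h2 : ∀ a : Fin (Ψ l).natDegree, ∑ k', ∑ b : Fin f.natDegree,
      (if k' = (Function.update k.1 l a, Function.update k.2 l b) then
          φ (cmq (Ψ l) (k.1 l) a * cmq f (k.2 l) b) *
            KU Ψ f ω ξ (Function.update k.1 l a, Function.update k.2 l b) else 0) =
      ∑ b : Fin f.natDegree, φ (cmq (Ψ l) (k.1 l) a * cmq f (k.2 l) b) *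
            KU Ψ f ω ξ (Function.update k.1 l a, Function.update k.2 l b) := by
    intro a
    rw [Finset.sum_comm]
    refine sum_congr rfl fun b _ => ?_
    rw [Finset.sum_ite_eq' univ, if_pos (mem_univ _)]
  rw [sum_congr rfl fun a _ => h2 a]
  have h3 : ∀ (a : Fin (Ψ l).natDegree) (b : Fin f.natDegree),
      φ (cmq (Ψ l) (k.1 l) a * cmq f (k.2 l) b) *
            KU Ψ f ω ξ (Function.update k.1 l a, Function.update k.2 l b) =
      (φ (cmq (Ψ l) (k.1 l) a) * ω l ^ (a : ℕ)) * ((φ (cmq f (k.2 l) b) * ξ l ^ (b : ℕ)) *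
        ((∏ l' ∈ univ.erase l, ω l' ^ (k.1 l' : ℕ)) * ∏ l' ∈ univ.erase l, ξ l' ^ (k.2 l' : ℕ))) := by
    intro a b
    unfold KU
    have e1 := prod_upd ω (fun l (x : Fin (Ψ l).natDegree) => (x : ℕ)) k.1 l a
    have e2 := prod_upd (I := fun _ => Fin f.natDegree) ξ (fun l (x : Fin f.natDegree) => (x : ℕ)) k.2 l b
    rw [e1, e2, map_mul]
    ring
  simp only [h3]
  simp only [← Finset.mul_sum, ← Finset.sum_mul]
  rw [cmq_eig (hΨ l) φ (ω l) (hω l) (k.1 l), cmq_eig hf φ (ξ l) (hξ l) (k.2 l)]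
  unfold KU
  rw [← Finset.mul_prod_erase univ (fun l => ω l ^ (k.1 l : ℕ)) (mem_univ l),
    ← Finset.mul_prod_erase univ (fun l => ξ l ^ (k.2 l : ℕ)) (mem_univ l)]
  ring

theorem KG_deg {Ψ : Fin L → ℤ[X][X]} {f : ℤ[X][X]} {B : ℕ} (hΨ : ∀ l j, ((Ψ l).coeff j).natDegree ≤ 0)
    (hf : ∀ j, (f.coeff j).natDegree ≤ B) (k k' : KI Ψ f) : (KG Ψ f k k').natDegree ≤ B := by
  unfold KG
  refine natDegree_sum_le_of_forall_le _ _ fun l _ => natDegree_sum_le_of_forall_le _ _ fun a _ =>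
    natDegree_sum_le_of_forall_le _ _ fun b _ => ?_
  split_ifs
  · refine natDegree_mul_le.trans ?_
    have h1 := cmq_deg (hΨ l) (k.1 l) a
    have h2 := cmq_deg hf (k.2 l) b
    omega
  · simp

theorem KG_L1 {Ψ : Fin L → ℤ[X][X]} {f : ℤ[X][X]} {W V : ℝ} (hW : 1 ≤ W) (hV : 1 ≤ V) {Q : ℕ}
    (hL : L ≤ Q) (hdΨ : ∀ l, (Ψ l).natDegree ≤ Q) (hdf : f.natDegree ≤ Q)
    (hΨ : ∀ l j, L1 ((Ψ l).coeff j) ≤ W) (hf : ∀ j, L1 (f.coeff j) ≤ V) (k k' : KI Ψ f) :
    L1 (KG Ψ f k k') ≤ (Q : ℝ) ^ 3 * (W * V) := by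
  unfold KG
  have h1 : ∀ l : Fin L, ∀ a : Fin (Ψ l).natDegree, ∀ b : Fin f.natDegree,
      L1 (if k' = (Function.update k.1 l a, Function.update k.2 l b) then
      cmq (Ψ l) (k.1 l) a * cmq f (k.2 l) b else 0) ≤ W * V := by
    intro l a b
    split_ifs
    · exact (L1_mul_le _ _).trans (mul_le_mul (cmq_L1 hW (hΨ l) _ _) (cmq_L1 hV hf _ _) (L1_nonneg _)
        (by linarith))
    · rw [L1_zero]
      positivity
  have hWV : 0 ≤ W * V := by positivity
  have h2 : ∀ l : Fin L, ∀ a : Fin (Ψ l).natDegree, L1 (∑ b : Fin f.natDegree,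
      (if k' = (Function.update k.1 l a, Function.update k.2 l b) then
      cmq (Ψ l) (k.1 l) a * cmq f (k.2 l) b else 0)) ≤ Q * (W * V) := by
    intro l a
    refine (L1_sum_le _ _).trans ((sum_le_sum fun b _ => h1 l a b).trans ?_)
    rw [sum_const, card_univ, Fintype.card_fin, nsmul_eq_mul]
    exact mul_le_mul_of_nonneg_right (by exact_mod_cast hdf) hWV
  have h3 : ∀ l : Fin L, L1 (∑ a : Fin (Ψ l).natDegree, ∑ b : Fin f.natDegree,
      (if k' = (Function.update k.1 l a, Function.update k.2 l b) then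
      cmq (Ψ l) (k.1 l) a * cmq f (k.2 l) b else 0)) ≤ Q * (Q * (W * V)) := by
    intro l
    refine (L1_sum_le _ _).trans ((sum_le_sum fun a _ => h2 l a).trans ?_)
    rw [sum_const, card_univ, Fintype.card_fin, nsmul_eq_mul]
    exact mul_le_mul_of_nonneg_right (by exact_mod_cast hdΨ l) (by positivity)
  refine (L1_sum_le _ _).trans ((sum_le_sum fun l _ => h3 l).trans ?_)
  rw [sum_const, card_univ, Fintype.card_fin, nsmul_eq_mul]
  calc (L : ℝ) * (Q * (Q * (W * V))) ≤ Q * (Q * (Q * (W * V))) :=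
        mul_le_mul_of_nonneg_right (by exact_mod_cast hL) (by positivity)
    _ = (Q : ℝ) ^ 3 * (W * V) := by ring

theorem KI_card {Ψ : Fin L → ℤ[X][X]} {f : ℤ[X][X]} {Q : ℕ} (hL : L ≤ Q)
    (hdΨ : ∀ l, (Ψ l).natDegree ≤ Q) (hdf : f.natDegree ≤ Q) :
    Fintype.card (KI Ψ f) ≤ (Q + 1) ^ (2 * Q) := by
  rw [Fintype.card_prod, Fintype.card_pi, Fintype.card_pi, two_mul, pow_add]
  have h1 : ∀ (g : Fin L → ℕ), (∀ l, g l ≤ Q) → ∏ l, g l ≤ (Q + 1) ^ Q := by
    intro g hg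
    calc ∏ l, g l ≤ ∏ _l : Fin L, (Q + 1) := Finset.prod_le_prod' fun l _ => (hg l).trans (by omega)
      _ = (Q + 1) ^ L := by simp
      _ ≤ (Q + 1) ^ Q := Nat.pow_le_pow_right (by omega) hL
  refine Nat.mul_le_mul (h1 _ fun l => ?_) (h1 _ fun l => ?_)
  · rw [Fintype.card_fin]
    exact hdΨ l
  · rw [Fintype.card_fin]
    exact hdf

end Pool.Agent.H98.FF
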