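import Pool.Agent.H98.FF.Defs
import Pool.Agent.H98.FF.CHP

/-!
# [H98 FF TT] The matrices of the anchor: `Um` (root `u^e = N t`) and `cmq` (companion matrix)

Eigenvectors, degrees and lengths.
-/

namespace Pool.Agent.H98.FF

open Finset Polynomial Pool.Agent.H72.ES

theorem Um_eig {N e s : ℕ} (hs : s < e) {S : Type*} [CommRing S] (φ : ℤ[X] →+* S) (u : S)
    (hu : u ^ e = (N : S) * φ X) (a : Fin e) :
    ∑ a', φ (Um N e s a a') * u ^ (a' : ℕ) = u ^ s * u ^ (a : ℕ) := by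
  have ha := a.2
  have hN : φ (C (N : ℤ)) = (N : S) := by
    have : φ (C (N : ℤ)) = (φ.comp C) (N : ℤ) := rfl
    rw [this, eq_intCast, Int.cast_natCast]
  by_cases h : (a : ℕ) + s < e
  · rw [Finset.sum_eq_single (⟨(a : ℕ) + s, h⟩ : Fin e)]
    · unfold Um
      rw [if_pos rfl, map_one, one_mul, ← pow_add, add_comm s]
    · intro a' _ hne
      unfold Um
      rw [if_neg (fun hc => hne (Fin.ext hc)), if_neg (by have := a'.2; omega), map_zero, zero_mul]
    · intro hc
      exact absurd (mem_univ _) hc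
  · have h' : (a : ℕ) + s - e < e := by omega
    rw [Finset.sum_eq_single (⟨(a : ℕ) + s - e, h'⟩ : Fin e)]
    · unfold Um
      have h1 : ¬ ((a : ℕ) + s - e = a + s) := by omega
      have h2 : (a : ℕ) + s - e + e = a + s := by omega
      simp only [h1, h2, if_false, if_true]
      rw [map_mul, hN, ← hu, ← pow_add, ← pow_add]
      congr 1
      omega
    · intro a' _ hne
      unfold Um
      rw [if_neg (by have := a'.2; omega), if_neg, map_zero, zero_mul]
      intro hc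
      apply hne
      apply Fin.ext
      simp only
      omega
    · intro hc
      exact absurd (mem_univ _) hc

theorem Um_deg (N e s : ℕ) (a a' : Fin e) : (Um N e s a a').natDegree ≤ 1 := by
  unfold Um
  split_ifs
  · simp
  · exact (natDegree_C_mul_le _ _).trans natDegree_X_le
  · simp

theorem Um_L1 {N : ℕ} (hN : 1 ≤ N) (e s : ℕ) (a a' : Fin e) : L1 (Um N e s a a') ≤ N := by
  have hN' : (1 : ℝ) ≤ N := by exact_mod_cast hN
  unfold Um
  split_ifs
  · rw [L1_one]
    exact hN'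
  · have h1 : (C (N : ℤ) * X : ℤ[X]) = C (N : ℤ) * X ^ 1 := by rw [pow_one]
    rw [h1, L1_monomial]
    simp
  · rw [L1_zero]
    linarith

theorem cmq_eig {Φ : ℤ[X][X]} (hΦ : Φ.Monic) {S : Type*} [CommRing S] (φ : ℤ[X] →+* S) (z : S)
    (hz : Φ.eval₂ φ z = 0) (i : Fin Φ.natDegree) :
    ∑ j, φ (cmq Φ i j) * z ^ (j : ℕ) = z * z ^ (i : ℕ) := by
  by_cases hi : (i : ℕ) + 1 < Φ.natDegree
  · rw [Finset.sum_eq_single (⟨(i : ℕ) + 1, hi⟩ : Fin Φ.natDegree)]
    · unfold cmq
      rw [if_pos hi, if_pos rfl, map_one, one_mul, ← pow_succ']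
    · intro j _ hne
      unfold cmq
      rw [if_pos hi, if_neg (fun hc => hne (Fin.ext hc)), map_zero, zero_mul]
    · intro hc
      exact absurd (mem_univ _) hc
  · have hid : (i : ℕ) + 1 = Φ.natDegree := by
      have := i.2
      omega
    have h1 : ∀ j : Fin Φ.natDegree, φ (cmq Φ i j) * z ^ (j : ℕ) = -(φ (Φ.coeff j) * z ^ (j : ℕ)) := by
      intro j
      unfold cmq
      rw [if_neg hi, map_neg, neg_mul]
    rw [Finset.sum_congr rfl fun j _ => h1 j, Finset.sum_neg_distrib,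
      Fin.sum_univ_eq_sum_range (fun j => φ (Φ.coeff j) * z ^ j) Φ.natDegree]
    rw [eval₂_eq_sum_range, Finset.sum_range_succ] at hz
    have h2 : Φ.coeff Φ.natDegree = 1 := hΦ.coeff_natDegree
    rw [h2, map_one, one_mul] at hz
    rw [← pow_succ', hid]
    exact (eq_neg_of_add_eq_zero_right hz).symm

theorem cmq_pow_eig {Φ : ℤ[X][X]} (hΦ : Φ.Monic) {S : Type*} [CommRing S] (φ : ℤ[X] →+* S) (z : S)
    (hz : Φ.eval₂ φ z = 0) (k : ℕ) (i : Fin Φ.natDegree) :
    ∑ j, φ ((cmq Φ ^ k) i j) * z ^ (j : ℕ) = z ^ k * z ^ (i : ℕ) := by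
  induction k generalizing i with
  | zero =>
    rw [pow_zero, pow_zero, one_mul, Finset.sum_eq_single i]
    · rw [Matrix.one_apply_eq, map_one, one_mul]
    · intro j _ hne
      rw [Matrix.one_apply_ne (fun hc => hne hc.symm), map_zero, zero_mul]
    · intro hc
      exact absurd (mem_univ _) hc
  | succ k ih =>
    have h1 : ∀ j : Fin Φ.natDegree, φ ((cmq Φ ^ (k + 1)) i j) * z ^ (j : ℕ) =
        ∑ l, φ ((cmq Φ ^ k) i l) * (φ (cmq Φ l j) * z ^ (j : ℕ)) := by
      intro j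
      rw [pow_succ, Matrix.mul_apply, map_sum, Finset.sum_mul]
      refine Finset.sum_congr rfl fun l _ => ?_
      rw [map_mul, mul_assoc]
    rw [Finset.sum_congr rfl fun j _ => h1 j, Finset.sum_comm]
    have h2 : ∀ l : Fin Φ.natDegree, ∑ j, φ ((cmq Φ ^ k) i l) * (φ (cmq Φ l j) * z ^ (j : ℕ)) =
        z * (φ ((cmq Φ ^ k) i l) * z ^ (l : ℕ)) := by
      intro l
      rw [← Finset.mul_sum, cmq_eig hΦ φ z hz l]
      ring
    rw [Finset.sum_congr rfl fun l _ => h2 l, ← Finset.mul_sum, ih i, pow_succ]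
    ring

theorem cmq_deg {Φ : ℤ[X][X]} {B : ℕ} (hB : ∀ j, (Φ.coeff j).natDegree ≤ B)
    (i j : Fin Φ.natDegree) : (cmq Φ i j).natDegree ≤ B := by
  unfold cmq
  split_ifs
  · simp
  · simp
  · rw [natDegree_neg]
    exact hB _

theorem cmq_pow_deg {Φ : ℤ[X][X]} {B : ℕ} (hB : ∀ j, (Φ.coeff j).natDegree ≤ B) (k : ℕ)
    (i j : Fin Φ.natDegree) : ((cmq Φ ^ k) i j).natDegree ≤ B * k := by
  induction k generalizing i j with
  | zero =>
    rw [pow_zero, mul_zero]
    by_cases hj : i = j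
    · rw [hj, Matrix.one_apply_eq, natDegree_one]
    · rw [Matrix.one_apply_ne hj, natDegree_zero]
  | succ k ih =>
    rw [pow_succ, Matrix.mul_apply]
    apply natDegree_sum_le_of_forall_le
    intro l _
    refine natDegree_mul_le.trans ?_
    have h1 := ih i l
    have h2 := cmq_deg hB l j
    rw [mul_add, mul_one]
    omega

theorem cmq_L1 {Φ : ℤ[X][X]} {W : ℝ} (hW : 1 ≤ W) (hL : ∀ j, L1 (Φ.coeff j) ≤ W)
    (i j : Fin Φ.natDegree) : L1 (cmq Φ i j) ≤ W := by
  unfold cmq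
  split_ifs
  · rw [L1_one]
    exact hW
  · rw [L1_zero]
    linarith
  · rw [L1_neg]
    exact hL _

theorem cmq_pow_L1 {Φ : ℤ[X][X]} {W : ℝ} (hW : 1 ≤ W) (hL : ∀ j, L1 (Φ.coeff j) ≤ W) (k : ℕ)
    (i j : Fin Φ.natDegree) : L1 ((cmq Φ ^ k) i j) ≤ ((Φ.natDegree : ℝ) * W) ^ k := by
  induction k generalizing i j with
  | zero =>
    rw [pow_zero, pow_zero]
    by_cases hj : i = j
    · rw [hj, Matrix.one_apply_eq, L1_one]
    · rw [Matrix.one_apply_ne hj, L1_zero]
      norm_num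
  | succ k ih =>
    rw [pow_succ, Matrix.mul_apply]
    refine (L1_sum_le _ _).trans ?_
    have h1 : ∀ l ∈ (Finset.univ : Finset (Fin Φ.natDegree)), L1 ((cmq Φ ^ k) i l * cmq Φ l j) ≤
        ((Φ.natDegree : ℝ) * W) ^ k * W := by
      intro l _
      refine (L1_mul_le _ _).trans ?_
      exact mul_le_mul (ih i l) (cmq_L1 hW hL l j) (L1_nonneg _) (by positivity)
    refine (Finset.sum_le_sum h1).trans (le_of_eq ?_)
    rw [Finset.sum_const, Finset.card_univ, Fintype.card_fin, nsmul_eq_mul, pow_succ]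
    ring

end Pool.Agent.H98.FF
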