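import Pool.Agent.H98.FF.IDX
import Pool.Agent.H97.FB.ZRX

/-!
# [H98 FF VAN] The vanishing of the local expansion in the notation of `Pool/Agent/H97/FB`
-/

namespace Pool.Agent.H98.FF

open Finset Polynomial Pool.Agent.H72.ES Pool.Agent.H87.SA Pool.Agent.H87.SA2 Pool.Agent.H8.AW Pool.Agent.H52.AC
  Pool.Agent.H97.NW H4AR Pool.Agent.H97.FB

variable {m n : ℕ}

theorem coeff_gS_Fl (P : Fin m → Ptd n) (Nn : Fin m → ℕ) {D Dl κ e M : ℕ} {X0 R : ℝ}
    (an : Pool.Agent.H87.AX.AnchX D Dl κ e M X0 R) (hR : 0 ≤ R) (hX : R < X0) (q J : ℕ)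
    (A : ℕ → ℕ → Mo P Nn → ℤ) (K : Fin m →₀ ℕ) (l : ℕ) :
    PowerSeries.coeff l (MvPowerSeries.coeff K
      (gS P Nn e q J D X0 (1 / X0) (tay (1 / X0) (an.Z.map an.ψ)) A)) =
      (q : ℝ) ^ J * ∑ μ, Fl an J A l μ *
        ((∏ v, PowerSeries.coeff (K v) ((P v).psi ((μ v).1, (μ v).2)) : ℤ) : ℝ) := by
  have hX0 : 0 < X0 := by linarith
  have hcv : Cv (1 / X0) (an.Z.map an.ψ) := an.cv hR hX
  have hh : (0 : ℝ) ≤ 1 / X0 := by positivity
  set w : ℕ → ℕ → PowerSeries ℝ := fun s j => PowerSeries.C (X0 ^ (s % e)) *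
        ((PowerSeries.C (1 / X0) + PowerSeries.X) ^ s * tay (1 / X0) (an.Z.map an.ψ) ^ j) with hw
  have h1 : ∀ μ, Fl an J A l μ = ∑ s ∈ range (J + 1), ∑ j ∈ range D,
      ((A s j μ : ℤ) : ℝ) * PowerSeries.coeff l (w s j) := by
    intro μ
    unfold Fl uA
    rw [usR_map, an.ψ_x0, (tay_usR hh X0 e J D _ hcv).2, map_sum]
    refine sum_congr rfl fun s _ => ?_
    rw [map_sum]
    refine sum_congr rfl fun j _ => ?_
    have h2 : ((A s j μ : ℤ) : PowerSeries ℝ) = PowerSeries.C ((A s j μ : ℤ) : ℝ) := by simp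
    rw [h2, PowerSeries.coeff_C_mul]
  rw [coeff_gS, map_sum]
  have h3 : ∀ s j, PowerSeries.coeff l (((Lm P Nn (A s j) K : ℤ) : PowerSeries ℝ) *
      wS e q J X0 (1 / X0) (tay (1 / X0) (an.Z.map an.ψ)) s j) =
      (q : ℝ) ^ J * ((Lm P Nn (A s j) K : ℝ) * PowerSeries.coeff l (w s j)) := by
    intro s j
    have h2 : ((Lm P Nn (A s j) K : ℤ) : PowerSeries ℝ) =
        PowerSeries.C ((Lm P Nn (A s j) K : ℤ) : ℝ) := by simp
    have h4 : wS e q J X0 (1 / X0) (tay (1 / X0) (an.Z.map an.ψ)) s j =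
        PowerSeries.C ((q : ℝ) ^ J) * w s j := by
      unfold wS
      rw [hw, map_mul]
      ring
    rw [h2, h4, PowerSeries.coeff_C_mul, PowerSeries.coeff_C_mul]
    ring
  have h5 : ∀ s ∈ range (J + 1), PowerSeries.coeff l (∑ j ∈ range D,
      ((Lm P Nn (A s j) K : ℤ) : PowerSeries ℝ) *
        wS e q J X0 (1 / X0) (tay (1 / X0) (an.Z.map an.ψ)) s j) =
      ∑ j ∈ range D, (q : ℝ) ^ J * ((Lm P Nn (A s j) K : ℝ) * PowerSeries.coeff l (w s j)) := by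
    intro s _
    rw [map_sum]
    exact sum_congr rfl fun j _ => h3 s j
  rw [sum_congr rfl h5]
  simp only [← Finset.mul_sum]
  congr 1
  have h6 : ∀ s j, ((Lm P Nn (A s j) K : ℤ) : ℝ) = ∑ μ, ((A s j μ : ℤ) : ℝ) *
      ((∏ v, PowerSeries.coeff (K v) ((P v).psi ((μ v).1, (μ v).2)) : ℤ) : ℝ) := by
    intro s j
    unfold Lm
    push_cast
    rfl
  simp only [h6, h1, Finset.sum_mul]
  rw [Finset.sum_congr rfl (fun s _ => Finset.sum_comm), Finset.sum_comm]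
  refine sum_congr rfl fun μ _ => sum_congr rfl fun s _ => sum_congr rfl fun j _ => ?_
  ring

theorem van_mul {W : Fin m → ℝ} {l0 θ : ℝ} (hW : ∀ v, 0 ≤ W v) (hl0 : 0 ≤ l0)
    (g f : MvPowerSeries (Fin m) (PowerSeries ℝ))
    (hg : ∀ (K : Fin m →₀ ℕ) (l : ℕ), (l : ℝ) * l0 + ∑ v, W v * (K v : ℝ) < θ →
      PowerSeries.coeff l (MvPowerSeries.coeff K g) = 0)
    (K : Fin m →₀ ℕ) (l : ℕ) (h : (l : ℝ) * l0 + ∑ v, W v * (K v : ℝ) < θ) :
    PowerSeries.coeff l (MvPowerSeries.coeff K (g * f)) = 0 := by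
  classical
  rw [MvPowerSeries.coeff_mul, map_sum]
  refine sum_eq_zero fun p hp => ?_
  rw [PowerSeries.coeff_mul]
  refine sum_eq_zero fun r hr => ?_
  rw [Finset.HasAntidiagonal.mem_antidiagonal] at hp hr
  rw [hg p.1 r.1, zero_mul]
  refine lt_of_le_of_lt (add_le_add ?_ ?_) h
  · refine mul_le_mul_of_nonneg_right ?_ hl0
    have : r.1 ≤ l := by omega
    exact_mod_cast this
  · refine sum_le_sum fun v _ => mul_le_mul_of_nonneg_left ?_ (hW v)
    have : p.1 v ≤ K v := by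
      rw [← hp, Finsupp.add_apply]
      omega
    exact_mod_cast this

end Pool.Agent.H98.FF
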