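import Pool.Agent.H98.FF.Defs
import Pool.Agent.H87.AX.VA

/-!
# [H98 FF ZNE] The local expansion `gS` of the auxiliary function: coefficients, it is not zero
-/

namespace Pool.Agent.H98.FF

open Finset Polynomial Pool.Agent.H72.ES Pool.Agent.H87.SA Pool.Agent.H87.SA2 Pool.Agent.H8.AW Pool.Agent.H52.AC
  Pool.Agent.H97.NW H4AR

variable {m n : ℕ}

/-- a relation between the functions of the anchor at the rational point is trivial -/
theorem us_indep {D Dl κ e M : ℕ} {X0 R : ℝ} (an : Pool.Agent.H87.AX.AnchX D Dl κ e M X0 R)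
    (hD : D ≤ Dl) (he : 1 ≤ e) (hR : 2 ≤ R) (hX : 8 * R ≤ X0) {q : ℕ} (hq : 1 ≤ q) (J : ℕ)
    (c : ℕ → ℕ → ℤ)
    (h0 : ∑ s ∈ range (J + 1), ∑ j ∈ range D, ((c s j : ℤ) : PowerSeries ℝ) *
      wS e q J X0 (1 / X0) (tay (1 / X0) (an.Z.map an.ψ)) s j = 0) :
    ∀ s ≤ J, ∀ j < D, c s j = 0 := by
  have hX0 : 0 < X0 := by linarith
  have hX1 : 1 ≤ X0 := by linarith
  have hh : 0 < 1 / X0 := by positivity
  have hcv : Cv (1 / X0) (an.Z.map an.ψ) := an.cv (by linarith) (by linarith)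
  have hinj : Function.Injective an.ψ := by
    rw [injective_iff_map_eq_zero]
    intro a ha
    by_contra hcon
    have := an.liou a hcon
    rw [ha, abs_zero, zero_mul] at this
    linarith
  have h1 := (tay_usR hh.le X0 e J D c hcv).2
  have h2 : PowerSeries.C ((q : ℝ) ^ J) * tay (1 / X0) (usR X0 e J D c (an.Z.map an.ψ)) = 0 := by
    rw [h1, ← h0, Finset.mul_sum]
    refine sum_congr rfl fun s _ => ?_
    rw [Finset.mul_sum]
    refine sum_congr rfl fun j _ => ?_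
    unfold wS
    rw [map_mul]
    ring
  have hq0 : PowerSeries.C ((q : ℝ) ^ J) ≠ 0 := by
    intro hc
    have h3 := congrArg PowerSeries.constantCoeff hc
    rw [PowerSeries.constantCoeff_C, map_zero] at h3
    have h4 : (0 : ℝ) < (q : ℝ) ^ J := by positivity
    linarith
  have h3 : tay (1 / X0) (usR X0 e J D c (an.Z.map an.ψ)) = 0 := by
    rcases mul_eq_zero.1 h2 with h | h
    · exact absurd h hq0
    · exact h
  -- growth
  set us := usR an.x0 e J D c an.Z with hus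
  have hmap : us.map an.ψ = usR X0 e J D c (an.Z.map an.ψ) := by
    rw [hus, usR_map, an.ψ_x0]
  have hgeo : Geo (∑ s ∈ range (J + 1), ∑ j ∈ range D, |((c s j : ℤ) : ℝ)| *
      ((X0 ^ κ) ^ Dl * 2 ^ Dl)) (2 * R) (us.map an.ψ) := by
    intro k
    rw [PowerSeries.coeff_map]
    refine (an.ψ_le _).trans ?_
    rw [hus, coeff_usR, Finset.sum_mul]
    refine (Pool.Agent.H8.KF.SubMul_sum an.sub _ _).trans ?_
    refine sum_le_sum fun s _ => ?_
    rw [Finset.sum_mul]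
    refine (Pool.Agent.H8.KF.SubMul_sum an.sub _ _).trans ?_
    refine sum_le_sum fun j hj => ?_
    have e3 := zcR_le an.sub (A := X0 ^ κ) (R := R) (one_le_pow₀ hX1) (by linarith) he an.ν_x0
      an.Z_le hD k s j (mem_range.1 hj)
    refine (an.sub.mul _ _).trans ?_
    rw [mul_assoc]
    exact mul_le_mul (Pool.Agent.H8.KF.SubMul_int an.sub _) e3 (an.sub.nonneg _) (abs_nonneg _)
  have h4 : us.map an.ψ = 0 := by
    refine tay_inj hh (by linarith : (0 : ℝ) ≤ 2 * R) ?_ hgeo (by rw [hmap]; exact h3)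
    rw [mul_one_div, div_le_one hX0]
    linarith
  have h5 : us = 0 := by
    ext k
    apply hinj
    have h6 := congrArg (PowerSeries.coeff k) h4
    rw [PowerSeries.coeff_map] at h6
    rw [h6, map_zero, map_zero]
    simp
  exact an.indep J c h5

theorem coeff_mS (f : MvPowerSeries (Fin m) ℤ) (K : Fin m →₀ ℕ) :
    MvPowerSeries.coeff K (mS f) = ((MvPowerSeries.coeff K f : ℤ) : PowerSeries ℝ) := by
  unfold mS
  rw [MvPowerSeries.coeff_map]
  rfl

theorem coeff_gS (P : Fin m → Ptd n) (Nn : Fin m → ℕ) (e q J D : ℕ) (X0 h : ℝ)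
    (Zh : PowerSeries ℝ) (A : ℕ → ℕ → Mo P Nn → ℤ) (K : Fin m →₀ ℕ) :
    MvPowerSeries.coeff K (gS P Nn e q J D X0 h Zh A) =
      ∑ s ∈ range (J + 1), ∑ j ∈ range D, ((Lm P Nn (A s j) K : ℤ) : PowerSeries ℝ) *
        wS e q J X0 h Zh s j := by
  unfold gS
  rw [map_sum]
  refine sum_congr rfl fun s _ => ?_
  rw [map_sum]
  refine sum_congr rfl fun j _ => ?_
  unfold cS
  rw [MvPowerSeries.coeff_mul_C, coeff_mS, coeff_gl]

theorem gS_ne (hn : 4 ≤ n) (P : Fin m → Ptd n) (hP : ∀ v, (P v).Thr (cA n)) (Nn : Fin m → ℕ)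
    {D Dl κ e M : ℕ} {X0 R : ℝ} (an : Pool.Agent.H87.AX.AnchX D Dl κ e M X0 R)
    (hD : D ≤ Dl) (he : 1 ≤ e) (hR : 2 ≤ R) (hX : 8 * R ≤ X0) {q : ℕ} (hq : 1 ≤ q) (J : ℕ)
    (A : ℕ → ℕ → Mo P Nn → ℤ) (hA : ∃ s ≤ J, ∃ j < D, A s j ≠ 0) :
    gS P Nn e q J D X0 (1 / X0) (tay (1 / X0) (an.Z.map an.ψ)) A ≠ 0 := by
  intro h0
  obtain ⟨s, hs, j, hj, hne⟩ := hA
  apply gl_ne hn P hP Nn (A s j) hne
  ext K
  rw [coeff_gl, map_zero]
  have h1 := congrArg (MvPowerSeries.coeff K) h0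
  rw [coeff_gS, map_zero] at h1
  exact us_indep an hD he hR hX hq J (fun s j => Lm P Nn (A s j) K) h1 s hs j hj

end Pool.Agent.H98.FF
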